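import Mathlib

/-! Generic formulas for the symbols, and their identities. -/
set_option autoImplicit false
set_option linter.unusedVariables false

namespace Pool.Agent.J4H76.LB

noncomputable section

variable {A A' : Type} [CommRing A] [Algebra ℝ A] [CommRing A'] [Algebra ℝ A']

/-- one half -/
def e2 (A : Type) [CommRing A] [Algebra ℝ A] : A := algebraMap ℝ A (1 / 2)

lemma two_e2 : 2 * e2 A = 1 := by
  unfold e2
  rw [← map_ofNat (algebraMap ℝ A) 2, ← map_mul]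
  norm_num

lemma map_e2 (f : A →ₐ[ℝ] A') : f (e2 A) = e2 A' := by
  unfold e2; exact f.commutes _

def kk (M : ℕ) (r : A) : A := (1 - e2 A ^ 2 * r) ^ M
def kt (M : ℕ) (r : A) : A := e2 A ^ 2 * ∑ j ∈ Finset.range M, (1 - e2 A ^ 2 * r) ^ j

lemma kt_mul (M : ℕ) (r : A) : r * kt M r = 1 - kk M r := by
  have h := geom_sum_mul (1 - e2 A ^ 2 * r) M
  unfold kt kk
  linear_combination (-1 : A) * h

def cc (ρ : A) : A := (1 - ρ ^ 2) ^ 2
def ss (ρ : A) : A := 2 * (1 + ρ ^ 2)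
def qq (ρ r : A) : A := r ^ 2 - ss ρ * r + cc ρ
def wg (ρ r : A) : A := 2 * cc ρ * (r - ss ρ) + r * (r - ss ρ) ^ 2
def FF (M : ℕ) (ρ γ r : A) : A := kt M r - γ * wg ρ r * kk M r
def hh (M : ℕ) (ρ γ r : A) : A := 1 - γ * qq ρ r ^ 2 * kk M r
def kp (M : ℕ) (ρ γ τ r : A) : A := τ * (r ^ 2 - cc ρ) * FF M ρ γ r

/-- `σ_N` -/
def sg (M : ℕ) : ℕ → A → A → A → A → A
  | 0, ρ, γ, τ, r => kp M ρ γ τ r
  | (N + 1), ρ, γ, τ, r => e2 A * (3 * sg M N ρ γ τ r - sg M N ρ γ τ r ^ 3)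

lemma rFF {ρ γ : A} (hγ : γ * cc ρ ^ 2 = 1) (M : ℕ) (r : A) :
    r * FF M ρ γ r = hh M ρ γ r := by
  unfold FF hh
  have h1 := kt_mul M r
  have h2 : qq ρ r ^ 2 = cc ρ ^ 2 + r * wg ρ r := by unfold qq wg; ring
  rw [h2]
  linear_combination h1 + kk M r * hγ

section maps
variable (f : A →ₐ[ℝ] A')

lemma map_kk (M : ℕ) (r : A) : f (kk M r) = kk M (f r) := by
  unfold kk; simp only [map_pow, map_sub, map_one, map_mul, map_e2]
lemma map_kt (M : ℕ) (r : A) : f (kt M r) = kt M (f r) := by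
  unfold kt; simp only [map_pow, map_sub, map_one, map_mul, map_e2, map_sum]
lemma map_cc (ρ : A) : f (cc ρ) = cc (f ρ) := by
  unfold cc; simp only [map_pow, map_sub, map_one]
lemma map_ss (ρ : A) : f (ss ρ) = ss (f ρ) := by
  unfold ss; simp only [map_pow, map_add, map_one, map_mul, map_ofNat]
lemma map_qq (ρ r : A) : f (qq ρ r) = qq (f ρ) (f r) := by
  unfold qq; simp only [map_pow, map_add, map_sub, map_mul, map_ss, map_cc]
lemma map_wg (ρ r : A) : f (wg ρ r) = wg (f ρ) (f r) := by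
  unfold wg; simp only [map_pow, map_add, map_sub, map_mul, map_ss, map_cc, map_ofNat]
lemma map_FF (M : ℕ) (ρ γ r : A) : f (FF M ρ γ r) = FF M (f ρ) (f γ) (f r) := by
  unfold FF; simp only [map_sub, map_mul, map_kt, map_kk, map_wg]
lemma map_hh (M : ℕ) (ρ γ r : A) : f (hh M ρ γ r) = hh M (f ρ) (f γ) (f r) := by
  unfold hh; simp only [map_sub, map_mul, map_kk, map_qq, map_one, map_pow]
lemma map_kp (M : ℕ) (ρ γ τ r : A) : f (kp M ρ γ τ r) = kp M (f ρ) (f γ) (f τ) (f r) := by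
  unfold kp; simp only [map_sub, map_mul, map_FF, map_pow, map_cc]
lemma map_sg (M : ℕ) : ∀ (N : ℕ) (ρ γ τ r : A),
    f (sg M N ρ γ τ r) = sg M N (f ρ) (f γ) (f τ) (f r)
  | 0, ρ, γ, τ, r => map_kp f M ρ γ τ r
  | (N + 1), ρ, γ, τ, r => by
    simp only [sg, map_mul, map_sub, map_pow, map_e2, map_ofNat, map_sg M N]
end maps

/-- the two halves of the decomposition -/
def P1 (M N : ℕ) (ρ γ τ r : A) : A := e2 A * (1 - sg M N ρ γ τ r)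
def P2 (M N : ℕ) (ρ γ τ r : A) : A := e2 A * (1 - sg M N ρ γ τ r ^ 2)

def ff (σ : A) : A := e2 A - e2 A * σ - e2 A ^ 2 * (σ ^ 2 * (1 - σ ^ 2))

lemma P_sq (M N : ℕ) (ρ γ τ r : A) : P1 M N ρ γ τ r ^ 2 + P2 M N ρ γ τ r ^ 2 =
    ff (sg M N ρ γ τ r) := by
  unfold P1 P2 ff
  linear_combination (e2 A - e2 A * sg M N ρ γ τ r) * (two_e2 (A := A))

lemma map_P1 (f : A →ₐ[ℝ] A') (M N : ℕ) (ρ γ τ r : A) :
    f (P1 M N ρ γ τ r) = P1 M N (f ρ) (f γ) (f τ) (f r) := by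
  unfold P1; simp only [map_mul, map_sub, map_one, map_e2, map_sg]
lemma map_P2 (f : A →ₐ[ℝ] A') (M N : ℕ) (ρ γ τ r : A) :
    f (P2 M N ρ γ τ r) = P2 M N (f ρ) (f γ) (f τ) (f r) := by
  unfold P2; simp only [map_mul, map_sub, map_one, map_e2, map_sg, map_pow]
lemma map_ff (f : A →ₐ[ℝ] A') (σ : A) : f (ff σ) = ff (f σ) := by
  unfold ff; simp only [map_mul, map_sub, map_one, map_e2, map_pow]

/-- discriminant -/
def dg (ρ x : A) : A := (4 - x) * (4 * ρ ^ 2 - x)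

lemma map_dg (f : A →ₐ[ℝ] A') (ρ x : A) : f (dg ρ x) = dg (f ρ) (f x) := by
  unfold dg; simp only [map_mul, map_sub, map_ofNat, map_pow]

def MM (M : ℕ) (ρ γ τ x r : A) : A := τ ^ 2 * (4 * (1 + ρ ^ 2) - x) +
  τ ^ 2 * dg ρ x * x * (2 * (γ * r ^ 2 * kk M r) - x ^ 2 * (γ * r ^ 2 * kk M r) ^ 2)

/-- `β_N` -/
def bt (M : ℕ) : ℕ → A → A → A → A → A → A
  | 0, ρ, γ, τ, x, r => e2 A ^ 4 * τ ^ 2 * hh M ρ γ r ^ 2 * (3 - kp M ρ γ τ r ^ 2) ^ 2 *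
      MM M ρ γ τ x r ^ 2 * (4 - kp M ρ γ τ r ^ 2)
  | (N + 1), ρ, γ, τ, x, r => bt M N ρ γ τ x r * (e2 A ^ 4 * (3 - sg M (N + 1) ρ γ τ r ^ 2) ^ 2 *
      (1 - sg M (N + 1) ρ γ τ r ^ 2) * (4 - sg M (N + 1) ρ γ τ r ^ 2))

lemma map_MM (f : A →ₐ[ℝ] A') (M : ℕ) (ρ γ τ x r : A) :
    f (MM M ρ γ τ x r) = MM M (f ρ) (f γ) (f τ) (f x) (f r) := by
  unfold MM; simp only [map_mul, map_sub, map_add, map_one, map_pow, map_ofNat, map_kk, map_dg]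

lemma map_bt (f : A →ₐ[ℝ] A') (M : ℕ) : ∀ (N : ℕ) (ρ γ τ x r : A),
    f (bt M N ρ γ τ x r) = bt M N (f ρ) (f γ) (f τ) (f x) (f r)
  | 0, ρ, γ, τ, x, r => by
    simp only [bt, map_mul, map_sub, map_pow, map_ofNat, map_e2, map_hh, map_kp, map_MM]
  | (N + 1), ρ, γ, τ, x, r => by
    simp only [bt, map_mul, map_sub, map_pow, map_ofNat, map_one, map_e2, map_sg,
      map_bt f M N]

/-- `r` is a root: `qq ρ r = - x r` -/
lemma kp_sq {ρ γ τ x r r' : A} (hγ : γ * cc ρ ^ 2 = 1) (hs : r + r' = ss ρ - x)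
    (hp : r * r' = cc ρ) (M : ℕ) : kp M ρ γ τ r ^ 2 = τ ^ 2 * dg ρ x * hh M ρ γ r ^ 2 := by
  have h1 : kp M ρ γ τ r = τ * (r - r') * hh M ρ γ r := by
    rw [← rFF hγ]; unfold kp; rw [← hp]; ring
  have h2 : (r - r') ^ 2 = dg ρ x := by
    have : (r - r') ^ 2 = (r + r') ^ 2 - 4 * (r * r') := by ring
    rw [this, hs, hp]; unfold ss cc dg; ring
  rw [h1, ← h2]; ring

lemma hh_x {ρ γ x r r' : A} (hs : r + r' = ss ρ - x) (hp : r * r' = cc ρ) (M : ℕ) :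
    hh M ρ γ r = 1 - x ^ 2 * (γ * r ^ 2 * kk M r) := by
  have h1 : qq ρ r = - (x * r) := by
    unfold qq; rw [← hp]
    linear_combination r * hs
  unfold hh; rw [h1]; ring

lemma one_sub_kp {ρ γ τ x r r' : A} (hγ : γ * cc ρ ^ 2 = 1) (hτ : τ ^ 2 * (16 * ρ ^ 2) = 1)
    (hs : r + r' = ss ρ - x) (hp : r * r' = cc ρ) (M : ℕ) :
    1 - kp M ρ γ τ r ^ 2 = x * MM M ρ γ τ x r := by
  rw [kp_sq hγ hs hp, hh_x hs hp]
  unfold MM dg
  linear_combination (-1 : A) * hτ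

lemma sg_bt {ρ γ τ x r r' : A} (hγ : γ * cc ρ ^ 2 = 1) (hτ : τ ^ 2 * (16 * ρ ^ 2) = 1)
    (hs : r + r' = ss ρ - x) (hp : r * r' = cc ρ) (M : ℕ) : ∀ N : ℕ,
    sg M (N + 1) ρ γ τ r ^ 2 * (1 - sg M (N + 1) ρ γ τ r ^ 2) =
      x ^ 2 * dg ρ x * bt M N ρ γ τ x r
  | 0 => by
    have h1 := one_sub_kp hγ hτ hs hp M
    have h2 := kp_sq (τ := τ) hγ hs hp M
    obtain ⟨κ, hκ⟩ : ∃ κ, κ = kp M ρ γ τ r := ⟨_, rfl⟩
    simp only [sg, bt]
    rw [← hκ] at h1 h2 ⊢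
    have e := two_e2 (A := A)
    have e4 : 1 - (e2 A * (3 * κ - κ ^ 3)) ^ 2 = e2 A ^ 2 * ((1 - κ ^ 2) ^ 2 * (4 - κ ^ 2)) := by
      have : (4 : A) * e2 A ^ 2 = 1 := by linear_combination (2 * e2 A + 1) * e
      linear_combination (-1 : A) * this
    rw [e4, h1]
    linear_combination (e2 A ^ 4 * (3 - κ ^ 2) ^ 2 * (x * MM M ρ γ τ x r) ^ 2 * (4 - κ ^ 2)) * h2
  | (N + 1) => by
    have ih := sg_bt hγ hτ hs hp M N
    rw [bt, sg]
    obtain ⟨σ, hσ⟩ : ∃ σ, σ = sg M (N + 1) ρ γ τ r := ⟨_, rfl⟩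
    rw [← hσ] at ih ⊢
    have e := two_e2 (A := A)
    have e4 : 1 - (e2 A * (3 * σ - σ ^ 3)) ^ 2 = e2 A ^ 2 * ((1 - σ ^ 2) ^ 2 * (4 - σ ^ 2)) := by
      have : (4 : A) * e2 A ^ 2 = 1 := by linear_combination (2 * e2 A + 1) * e
      linear_combination (-1 : A) * this
    rw [e4]
    linear_combination (e2 A ^ 4 * (3 - σ ^ 2) ^ 2 * (1 - σ ^ 2) * (4 - σ ^ 2)) * ih

/-! ### the quadratic extension -/

abbrev QA (ρ x : A) := QuadraticAlgebra A (dg ρ x) 0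

/-- the generic root -/
def rt (ρ x : A) : QA ρ x := ⟨e2 A * (ss ρ - x), e2 A⟩
/-- the other root -/
def rt' (ρ x : A) : QA ρ x := ⟨e2 A * (ss ρ - x), - e2 A⟩

abbrev li (ρ x : A) (a : A) : QA ρ x := algebraMap A (QA ρ x) a

/-- functoriality -/
def mq (f : A →ₐ[ℝ] A') (ρ x : A) {ρ' x' : A'} (h1 : f ρ = ρ') (h2 : f x = x') :
    QA ρ x →ₐ[ℝ] QA ρ' x' where
  toFun z := ⟨f z.re, f z.im⟩
  map_one' := by ext <;> simp [QuadraticAlgebra.re_one, QuadraticAlgebra.im_one]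
  map_mul' z w := by
    ext <;> simp [map_dg, h1, h2]
  map_zero' := by ext <;> simp
  map_add' z w := by ext <;> simp
  commutes' r := by
    have a1 : algebraMap ℝ (QA ρ x) r = ⟨algebraMap ℝ A r, 0⟩ := rfl
    have a2 : algebraMap ℝ (QA ρ' x') r = ⟨algebraMap ℝ A' r, 0⟩ := rfl
    rw [a1, a2]
    ext <;> simp

/-- evaluation at a square root of the discriminant -/
def eq' (ρ x δ : A) (h : δ ^ 2 = dg ρ x) : QA ρ x →ₐ[ℝ] A where
  toFun z := z.re + z.im * δ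
  map_one' := by simp [QuadraticAlgebra.re_one, QuadraticAlgebra.im_one]
  map_mul' z w := by
    simp only [QuadraticAlgebra.re_mul, QuadraticAlgebra.im_mul]
    linear_combination (-(z.im * w.im)) * h
  map_zero' := by simp
  map_add' z w := by simp; ring
  commutes' r := by
    have a1 : algebraMap ℝ (QA ρ x) r = ⟨algebraMap ℝ A r, 0⟩ := rfl
    rw [a1]; simp

lemma mq_li (f : A →ₐ[ℝ] A') (ρ x : A) {ρ' x' : A'} (h1 : f ρ = ρ') (h2 : f x = x') (a : A) :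
    mq f ρ x h1 h2 (li ρ x a) = li ρ' x' (f a) := by
  show (⟨f (li ρ x a).re, f (li ρ x a).im⟩ : QA ρ' x') = li ρ' x' (f a)
  ext <;> simp [li]

lemma mq_rt (f : A →ₐ[ℝ] A') (ρ x : A) {ρ' x' : A'} (h1 : f ρ = ρ') (h2 : f x = x') :
    mq f ρ x h1 h2 (rt ρ x) = rt ρ' x' := by
  show (⟨f (rt ρ x).re, f (rt ρ x).im⟩ : QA ρ' x') = rt ρ' x'
  ext <;> simp [rt, map_ss, map_e2, h1, h2]

/-- `α_N` -/
def al (M : ℕ) : ℕ → A → A → A → A → A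
  | 0, ρ, γ, τ, x => -(2 * τ * γ) * (rt ρ x ^ 2 * kk M (rt ρ x)).im
  | (N + 1), ρ, γ, τ, x => al M N ρ γ τ x * (e2 A * (3 -
      ((sg M N (li ρ x ρ) (li ρ x γ) (li ρ x τ) (rt ρ x)).re ^ 2 + 3 *
      (sg M N (li ρ x ρ) (li ρ x γ) (li ρ x τ) (rt ρ x)).im ^ 2 * dg ρ x)))

/-- the symbol of the second quadratic expression -/
def Bg (M N : ℕ) (ρ γ τ x : A) : A := x * (4 * ρ ^ 2 - x) * (-(e2 A) * (al M (N + 1) ρ γ τ x +
  (bt M N (li ρ x ρ) (li ρ x γ) (li ρ x τ) (li ρ x x) (rt ρ x)).re))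

lemma map_al (f : A →ₐ[ℝ] A') (M : ℕ) : ∀ (N : ℕ) (ρ γ τ x : A),
    f (al M N ρ γ τ x) = al M N (f ρ) (f γ) (f τ) (f x)
  | 0, ρ, γ, τ, x => by
    have h : f (rt ρ x ^ 2 * kk M (rt ρ x)).im = (rt (f ρ) (f x) ^ 2 * kk M (rt (f ρ) (f x))).im := by
      have : (mq f ρ x rfl rfl (rt ρ x ^ 2 * kk M (rt ρ x))).im =
        (rt (f ρ) (f x) ^ 2 * kk M (rt (f ρ) (f x))).im := by
        rw [map_mul, map_pow, map_kk, mq_rt]
      rw [← this]; rfl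
    simp only [al, map_mul, map_neg, map_ofNat, h]
  | (N + 1), ρ, γ, τ, x => by
    have h : mq f ρ x rfl rfl (sg M N (li ρ x ρ) (li ρ x γ) (li ρ x τ) (rt ρ x)) =
        sg M N (li (f ρ) (f x) (f ρ)) (li (f ρ) (f x) (f γ)) (li (f ρ) (f x) (f τ))
          (rt (f ρ) (f x)) := by
      rw [map_sg, mq_rt, mq_li, mq_li, mq_li]
    have h1 := congrArg QuadraticAlgebra.re h
    have h2 := congrArg QuadraticAlgebra.im h
    have h1' : f (sg M N (li ρ x ρ) (li ρ x γ) (li ρ x τ) (rt ρ x)).re = (sg M N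
      (li (f ρ) (f x) (f ρ)) (li (f ρ) (f x) (f γ)) (li (f ρ) (f x) (f τ)) (rt (f ρ) (f x))).re := h1
    have h2' : f (sg M N (li ρ x ρ) (li ρ x γ) (li ρ x τ) (rt ρ x)).im = (sg M N
      (li (f ρ) (f x) (f ρ)) (li (f ρ) (f x) (f γ)) (li (f ρ) (f x) (f τ)) (rt (f ρ) (f x))).im := h2
    simp only [al, map_mul, map_sub, map_add, map_pow, map_ofNat, map_e2, map_dg, h1', h2',
      map_al f M N]

lemma map_Bg (f : A →ₐ[ℝ] A') (M N : ℕ) (ρ γ τ x : A) :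
    f (Bg M N ρ γ τ x) = Bg M N (f ρ) (f γ) (f τ) (f x) := by
  have h : mq f ρ x rfl rfl (bt M N (li ρ x ρ) (li ρ x γ) (li ρ x τ) (li ρ x x) (rt ρ x)) =
      bt M N (li (f ρ) (f x) (f ρ)) (li (f ρ) (f x) (f γ)) (li (f ρ) (f x) (f τ))
        (li (f ρ) (f x) (f x)) (rt (f ρ) (f x)) := by
    rw [map_bt, mq_rt, mq_li, mq_li, mq_li, mq_li]
  have h1 := congrArg QuadraticAlgebra.re h
  have h1' : f (bt M N (li ρ x ρ) (li ρ x γ) (li ρ x τ) (li ρ x x) (rt ρ x)).re =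
      (bt M N (li (f ρ) (f x) (f ρ)) (li (f ρ) (f x) (f γ)) (li (f ρ) (f x) (f τ))
        (li (f ρ) (f x) (f x)) (rt (f ρ) (f x))).re := h1
  unfold Bg
  simp only [map_mul, map_sub, map_add, map_neg, map_pow, map_ofNat, map_e2, map_al, h1']

end

end Pool.Agent.J4H76.LB
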