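import Pool.Agent.J4H76.LB.Gen

/-! The trace identity. -/
set_option autoImplicit false
set_option linter.unusedVariables false
set_option linter.unusedSectionVars false

namespace Pool.Agent.J4H76.LB

noncomputable section

variable {A A' : Type} [CommRing A] [Algebra ℝ A] [CommRing A'] [Algebra ℝ A']

lemma li_map (ρ x a : A) : li ρ x a = (Algebra.ofId A (QA ρ x)) a := rfl

lemma li_cc (ρ x : A) : cc (li ρ x ρ) = li ρ x (cc ρ) := by
  unfold cc li; simp only [map_pow, map_sub, map_one]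
lemma li_ss (ρ x : A) : ss (li ρ x ρ) = li ρ x (ss ρ) := by
  unfold ss li; simp only [map_pow, map_add, map_one, map_mul, map_ofNat]
lemma li_dg (ρ x : A) : dg (li ρ x ρ) (li ρ x x) = li ρ x (dg ρ x) := by
  have : dg ρ x = (4 - x) * (4 * ρ ^ 2 - x) := rfl
  have h2 : li ρ x (dg ρ x) = li ρ x ((4 - x) * (4 * ρ ^ 2 - x)) := rfl
  rw [h2]
  show (4 - li ρ x x) * (4 * li ρ x ρ ^ 2 - li ρ x x) = _
  unfold li
  rw [map_mul, map_sub, map_sub, map_mul, map_pow, map_ofNat]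

lemma e2_QA (ρ x : A) : e2 (QA ρ x) = li ρ x (e2 A) := by
  unfold e2 li
  exact IsScalarTower.algebraMap_apply ℝ A (QA ρ x) (1 / 2)

lemma four_sq : (4 : A) * e2 A ^ 2 = 1 := by
  linear_combination (2 * e2 A + 1) * two_e2 (A := A)

lemma rt_sum (ρ x : A) : rt ρ x + rt' ρ x = ss (li ρ x ρ) - li ρ x x := by
  rw [li_ss]
  have e := two_e2 (A := A)
  ext
  · simp only [rt, rt', QuadraticAlgebra.re_add, QuadraticAlgebra.re_sub,
      QuadraticAlgebra.algebraMap_re]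
    linear_combination (ss ρ - x) * e
  · simp only [rt, rt', QuadraticAlgebra.im_add, QuadraticAlgebra.im_sub,
      QuadraticAlgebra.algebraMap_im]
    ring

lemma rt_prod (ρ x : A) : rt ρ x * rt' ρ x = cc (li ρ x ρ) := by
  rw [li_cc]
  have e := four_sq (A := A)
  ext
  · simp only [rt, rt', QuadraticAlgebra.re_mul, QuadraticAlgebra.algebraMap_re]
    have : (ss ρ - x) ^ 2 - dg ρ x = 4 * cc ρ := by unfold ss dg cc; ring
    linear_combination e2 A ^ 2 * this + cc ρ * e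
  · simp only [rt, rt', QuadraticAlgebra.im_mul, QuadraticAlgebra.algebraMap_im]
    ring

lemma rt_sub (ρ x : A) : rt ρ x - rt' ρ x = ⟨0, 1⟩ := by
  have e := two_e2 (A := A)
  ext
  · simp only [rt, rt', QuadraticAlgebra.re_sub]; ring
  · simp only [rt, rt', QuadraticAlgebra.im_sub]; linear_combination e

lemma li_γ {ρ γ x : A} (hγ : γ * cc ρ ^ 2 = 1) : li ρ x γ * cc (li ρ x ρ) ^ 2 = 1 := by
  rw [li_cc, ← map_pow, ← map_mul, hγ, map_one]

lemma li_τ {ρ τ x : A} (hτ : τ ^ 2 * (16 * ρ ^ 2) = 1) :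
    li ρ x τ ^ 2 * (16 * li ρ x ρ ^ 2) = 1 := by
  have : (16 : QA ρ x) = li ρ x 16 := by unfold li; rw [map_ofNat]
  rw [this, ← map_pow, ← map_pow, ← map_mul, ← map_mul, hτ, map_one]

lemma re_li_mul (ρ x a : A) (z : QA ρ x) : (li ρ x a * z).re = a * z.re := by
  simp only [QuadraticAlgebra.re_mul, QuadraticAlgebra.algebraMap_re,
    QuadraticAlgebra.algebraMap_im]
  ring

lemma im_li_mul (ρ x a : A) (z : QA ρ x) : (li ρ x a * z).im = a * z.im := by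
  simp only [QuadraticAlgebra.im_mul, QuadraticAlgebra.algebraMap_re,
    QuadraticAlgebra.algebraMap_im]
  ring

lemma re_sg {ρ γ τ x : A} (hγ : γ * cc ρ ^ 2 = 1) (M : ℕ) : ∀ N : ℕ,
    2 * (sg M N (li ρ x ρ) (li ρ x γ) (li ρ x τ) (rt ρ x)).re =
      x ^ 2 * dg ρ x * al M N ρ γ τ x
  | 0 => by
    have hγ' := li_γ (x := x) hγ
    have h1 : kp M (li ρ x ρ) (li ρ x γ) (li ρ x τ) (rt ρ x) =
        li ρ x τ * ((rt ρ x - rt' ρ x) * hh M (li ρ x ρ) (li ρ x γ) (rt ρ x)) := by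
      rw [← rFF hγ']; unfold kp; rw [← rt_prod]; ring
    have h2 : hh M (li ρ x ρ) (li ρ x γ) (rt ρ x) =
        1 - li ρ x (x ^ 2 * γ) * (rt ρ x ^ 2 * kk M (rt ρ x)) := by
      rw [hh_x (x := li ρ x x) (r' := rt' ρ x) (rt_sum ρ x) (rt_prod ρ x)]
      unfold li
      rw [map_mul, map_pow]; ring
    simp only [sg, al]
    rw [h1, re_li_mul, rt_sub, h2]
    have h3 : ∀ z : QA ρ x, ((⟨0, 1⟩ : QA ρ x) * z).re = dg ρ x * z.im := by
      intro z
      simp only [QuadraticAlgebra.re_mul]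
      ring
    rw [h3]
    simp only [QuadraticAlgebra.im_sub, im_li_mul, QuadraticAlgebra.im_one]
    ring
  | (N + 1) => by
    have ih := re_sg hγ M N (τ := τ) (x := x)
    obtain ⟨σ, hσ⟩ : ∃ σ, σ = sg M N (li ρ x ρ) (li ρ x γ) (li ρ x τ) (rt ρ x) := ⟨_, rfl⟩
    simp only [sg, al]
    rw [← hσ] at ih ⊢
    have h1 : (e2 (QA ρ x) * (3 * σ - σ ^ 3)).re =
        e2 A * (3 * σ.re - (σ.re ^ 3 + 3 * σ.re * σ.im ^ 2 * dg ρ x)) := by
      rw [e2_QA, re_li_mul]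
      have h3 : (3 * σ - σ ^ 3).re = 3 * σ.re - (σ.re ^ 3 + 3 * σ.re * σ.im ^ 2 * dg ρ x) := by
        have e3 : (3 : QA ρ x) * σ = σ + σ + σ := by ring
        have e4 : σ ^ 3 = σ * σ * σ := by ring
        rw [e3, e4]
        simp only [QuadraticAlgebra.re_sub, QuadraticAlgebra.re_add, QuadraticAlgebra.re_mul,
          QuadraticAlgebra.im_mul]
        ring
      rw [h3]
    rw [h1]
    linear_combination (e2 A * (3 - (σ.re ^ 2 + 3 * σ.im ^ 2 * dg ρ x))) * ih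

/-- the trace of `ff` in the quadratic extension -/
lemma re_ff {ρ γ τ x : A} (hγ : γ * cc ρ ^ 2 = 1) (hτ : τ ^ 2 * (16 * ρ ^ 2) = 1) (M N : ℕ) :
    2 * (ff (sg M (N + 1) (li ρ x ρ) (li ρ x γ) (li ρ x τ) (rt ρ x))).re =
      1 + x * (4 - x) * Bg M N ρ γ τ x := by
  have h1 := re_sg hγ M (N + 1) (τ := τ) (x := x)
  have h2 := sg_bt (li_γ (x := x) hγ) (li_τ (x := x) hτ) (rt_sum ρ x) (rt_prod ρ x) M N
  have h3 : (li ρ x x) ^ 2 * dg (li ρ x ρ) (li ρ x x) = li ρ x (x ^ 2 * dg ρ x) := by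
    rw [li_dg]; unfold li; rw [map_mul, map_pow]
  rw [h3] at h2
  unfold ff
  rw [h2, e2_QA]
  have h4 : li ρ x (e2 A) ^ 2 = li ρ x (e2 A ^ 2) := by unfold li; rw [map_pow]
  rw [h4]
  simp only [QuadraticAlgebra.re_sub, re_li_mul, QuadraticAlgebra.algebraMap_re]
  have e := two_e2 (A := A)
  unfold Bg
  obtain ⟨R, hR⟩ : ∃ R, R = (bt M N (li ρ x ρ) (li ρ x γ) (li ρ x τ) (li ρ x x) (rt ρ x)).re :=
    ⟨_, rfl⟩
  obtain ⟨S, hS⟩ : ∃ S, S = (sg M (N + 1) (li ρ x ρ) (li ρ x γ) (li ρ x τ) (rt ρ x)).re :=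
    ⟨_, rfl⟩
  rw [← hS] at h1
  rw [← hR, ← hS]
  have hdg : dg ρ x = (4 - x) * (4 * ρ ^ 2 - x) := rfl
  rw [hdg] at h1 ⊢
  linear_combination e - e2 A * h1 - (e2 A * (x ^ 2 * ((4 - x) * (4 * ρ ^ 2 - x)) * R)) * e

/-- **the trace identity** -/
theorem trace_id {ρ γ τ x r1 r2 : A} (hγ : γ * cc ρ ^ 2 = 1) (hτ : τ ^ 2 * (16 * ρ ^ 2) = 1)
    (hs : r1 + r2 = ss ρ - x) (hp : r1 * r2 = cc ρ) (M N : ℕ) :
    ff (sg M (N + 1) ρ γ τ r1) + ff (sg M (N + 1) ρ γ τ r2) =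
      1 + x * (4 - x) * Bg M N ρ γ τ x := by
  have hd : (r1 - r2) ^ 2 = dg ρ x := by
    have : (r1 - r2) ^ 2 = (r1 + r2) ^ 2 - 4 * (r1 * r2) := by ring
    rw [this, hs, hp]; unfold ss cc dg; ring
  have hd' : (-(r1 - r2)) ^ 2 = dg ρ x := by rw [neg_sq, hd]
  have e := two_e2 (A := A)
  have ev : ∀ (δ : A) (h : δ ^ 2 = dg ρ x) (r : A), e2 A * (ss ρ - x) + e2 A * δ = r →
      (ff (sg M (N + 1) (li ρ x ρ) (li ρ x γ) (li ρ x τ) (rt ρ x))).re +
      (ff (sg M (N + 1) (li ρ x ρ) (li ρ x γ) (li ρ x τ) (rt ρ x))).im * δ =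
      ff (sg M (N + 1) ρ γ τ r) := by
    intro δ h r hr
    have h1 : eq' ρ x δ h (ff (sg M (N + 1) (li ρ x ρ) (li ρ x γ) (li ρ x τ) (rt ρ x))) =
        ff (sg M (N + 1) ρ γ τ r) := by
      rw [map_ff, map_sg]
      have hl : ∀ a : A, eq' ρ x δ h (li ρ x a) = a := by
        intro a
        show (li ρ x a).re + (li ρ x a).im * δ = a
        simp [li]
      have hr' : eq' ρ x δ h (rt ρ x) = r := hr
      rw [hl, hl, hl, hr']
    exact h1
  have v1 := ev (r1 - r2) hd r1 (by rw [← hs]; linear_combination r1 * e)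
  have v2 := ev (-(r1 - r2)) hd' r2 (by rw [← hs]; linear_combination r2 * e)
  have v3 := re_ff (x := x) hγ hτ M N
  linear_combination v3 - v1 - v2

end

end Pool.Agent.J4H76.LB
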