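import Pool.Agent.J4H76.LB.Real

/-! Limits of the mean squares of the symbols. -/
set_option autoImplicit false
open Filter Topology MeasureTheory

namespace Pool.Agent.J4H76.LB

noncomputable section

open Pool.Agent.J4H76.TP (ms ms_dom Rf Xf Rf_cont Xf_cont)

/-! ### continuity in the parameters -/

abbrev YY := ℝ × ℝ × ℝ × ℝ

def c1 : C(YY, ℝ) := ⟨fun y => y.1, by fun_prop⟩
def c2 : C(YY, ℝ) := ⟨fun y => y.2.1, by fun_prop⟩
def c3 : C(YY, ℝ) := ⟨fun y => y.2.2.1, by fun_prop⟩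
def cR : C(YY, ℝ) := ⟨fun y => Rf y.1 y.2.2.2, by unfold Rf; fun_prop⟩
def cX : C(YY, ℝ) := ⟨fun y => Xf y.1 y.2.2.2, by unfold Xf; fun_prop⟩

lemma P1_ct (M N : ℕ) : Continuous (fun y : YY => P1 M N y.1 y.2.1 y.2.2.1 (Rf y.1 y.2.2.2)) := by
  have h : (fun y : YY => P1 M N y.1 y.2.1 y.2.2.1 (Rf y.1 y.2.2.2)) = (P1 M N c1 c2 c3 cR) := by
    funext y
    exact (map_P1 (ContinuousMap.evalAlgHom ℝ ℝ y) M N c1 c2 c3 cR).symm
  rw [h]; exact ContinuousMap.continuous _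

lemma P2_ct (M N : ℕ) : Continuous (fun y : YY => P2 M N y.1 y.2.1 y.2.2.1 (Rf y.1 y.2.2.2)) := by
  have h : (fun y : YY => P2 M N y.1 y.2.1 y.2.2.1 (Rf y.1 y.2.2.2)) = (P2 M N c1 c2 c3 cR) := by
    funext y
    exact (map_P2 (ContinuousMap.evalAlgHom ℝ ℝ y) M N c1 c2 c3 cR).symm
  rw [h]; exact ContinuousMap.continuous _

lemma Bg_ct (M N : ℕ) : Continuous (fun y : YY => Bg M N y.1 y.2.1 y.2.2.1 (Xf y.1 y.2.2.2)) := by
  have h : (fun y : YY => Bg M N y.1 y.2.1 y.2.2.1 (Xf y.1 y.2.2.2)) = (Bg M N c1 c2 c3 cX) := by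
    funext y
    exact (map_Bg (ContinuousMap.evalAlgHom ℝ ℝ y) M N c1 c2 c3 cX).symm
  rw [h]; exact ContinuousMap.continuous _

/-- continuity of the mean squares in the parameters -/
lemma ms_tend {g : YY → ℝ} (hg : Continuous g) {a b c : ℕ → ℝ} {a0 b0 c0 : ℝ}
    (ha : Tendsto a atTop (𝓝 a0)) (hb : Tendsto b atTop (𝓝 b0)) (hc : Tendsto c atTop (𝓝 c0)) :
    Tendsto (fun n => ms (fun θ => g (a n, b n, c n, θ))) atTop
      (𝓝 (ms fun θ => g (a0, b0, c0, θ))) := by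
  unfold ms
  refine Tendsto.const_mul _ ?_
  have h1 : Continuous (fun p : ℝ × ℝ × ℝ => ∫ θ in (0 : ℝ)..(2 * Real.pi),
      g (p.1, p.2.1, p.2.2, θ) ^ 2) := by
    refine intervalIntegral.continuous_parametric_intervalIntegral_of_continuous' ?_ _ _
    exact (hg.comp (by fun_prop)).pow 2
  exact (h1.tendsto (a0, b0, c0)).comp (ha.prodMk_nhds (hb.prodMk_nhds hc))

section
variable {ρ : ℝ} (h0 : 0 < ρ) (h1 : ρ < 1)
include h0 h1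

lemma roots2 {x : ℝ} (x0 : 0 ≤ x) (x1 : x ≤ 4 * ρ ^ 2) : ∃ r1 r2 : ℝ, r2 ≤ r1 ∧
    r1 + r2 = ss ρ - x ∧ r1 * r2 = cc ρ ∧ (1 - ρ) ^ 2 ≤ r1 ∧ r1 ≤ (1 + ρ) ^ 2 ∧
    (1 - ρ) ^ 2 ≤ r2 ∧ r2 ≤ (1 + ρ) ^ 2 := by
  obtain ⟨s1, s2, e1, e2, a1, a2, a3, a4⟩ := Pool.Agent.J4H76.TP.roots h0.le h1.le x0 x1
  have rng : ∀ r r' : ℝ, r + r' = 2 * (1 + ρ ^ 2) - x → r * r' = (1 - ρ ^ 2) ^ 2 → 0 ≤ r →
      (1 - ρ) ^ 2 ≤ r ∧ r ≤ (1 + ρ) ^ 2 := by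
    intro r r' h3 h4 h5
    have h6 : (r - (1 + ρ) ^ 2) * (r - (1 - ρ) ^ 2) ≤ 0 := by
      have : (r - (1 + ρ) ^ 2) * (r - (1 - ρ) ^ 2) = - (x * r) := by
        linear_combination r * h3 - h4
      rw [this]
      have := mul_nonneg x0 h5
      linarith
    have h7 : (1 - ρ) ^ 2 ≤ (1 + ρ) ^ 2 := by nlinarith
    constructor
    · by_contra h8
      push Not at h8
      have : 0 < ((1 + ρ) ^ 2 - r) * ((1 - ρ) ^ 2 - r) :=
        mul_pos (by linarith) (by linarith)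
      nlinarith
    · by_contra h8
      push Not at h8
      have : 0 < (r - (1 + ρ) ^ 2) * (r - (1 - ρ) ^ 2) := mul_pos (by linarith) (by linarith)
      linarith
  obtain ⟨u1, u2⟩ := rng s1 s2 e1 e2 a1
  obtain ⟨u3, u4⟩ := rng s2 s1 (by linarith) (by linarith) a3
  have e1' : s1 + s2 = ss ρ - x := e1
  have e2' : s1 * s2 = cc ρ := e2
  rcases le_total s2 s1 with h | h
  · exact ⟨s1, s2, h, e1', e2', u1, u2, u3, u4⟩
  · exact ⟨s2, s1, h, by linarith, by linarith, u3, u4, u1, u2⟩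

/-- the relation of `Bg` with the roots -/
lemma Bg_rel (M N : ℕ) {x r1 r2 : ℝ} (hs : r1 + r2 = ss ρ - x) (hp : r1 * r2 = cc ρ) :
    x * (4 - x) * Bg M N ρ (gam ρ) (tau ρ) x =
      ff (it (N + 1) (kp M ρ (gam ρ) (tau ρ) r1)) +
      (ff (it (N + 1) (kp M ρ (gam ρ) (tau ρ) r2)) - 1) := by
  have := trace_id (gam_mul h0 h1) (tau_mul h0 h1) hs hp M N
  rw [sg_it, sg_it] at this
  linarith

lemma MM_bd (M : ℕ) {x r : ℝ} (x0 : 0 ≤ x) (x1 : x ≤ 4 * ρ ^ 2) (ra : 0 ≤ r) (rb : r ≤ 4) :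
    MM M ρ (gam ρ) (tau ρ) x r ≤ tau ρ ^ 2 * 8 + tau ρ ^ 2 * 16 * 4 * (2 * (gam ρ * 16)) := by
  have g0 := gam_pos h0 h1
  have t0 : 0 ≤ tau ρ ^ 2 := sq_nonneg _
  have hρ2 : ρ ^ 2 ≤ 1 := by nlinarith
  have k0 : 0 ≤ 1 - e2 ℝ ^ 2 * r := by rw [e2_real]; nlinarith
  have k1 : 1 - e2 ℝ ^ 2 * r ≤ 1 := by rw [e2_real]; nlinarith
  have kk0 : 0 ≤ kk M r := pow_nonneg k0 _
  have kk1 : kk M r ≤ 1 := pow_le_one₀ k0 k1
  obtain ⟨u, hu⟩ : ∃ u, u = gam ρ * r ^ 2 * kk M r := ⟨_, rfl⟩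
  have u0 : 0 ≤ u := by rw [hu]; positivity
  have u1 : u ≤ gam ρ * 16 := by
    rw [hu]
    have : r ^ 2 ≤ 16 := by nlinarith
    have h2 : gam ρ * r ^ 2 ≤ gam ρ * 16 := mul_le_mul_of_nonneg_left this g0.le
    calc gam ρ * r ^ 2 * kk M r ≤ gam ρ * 16 * 1 := mul_le_mul h2 kk1 kk0 (by positivity)
      _ = _ := mul_one _
  have d0 : 0 ≤ dg ρ x := by unfold dg; exact mul_nonneg (by nlinarith) (by linarith)
  have d1 : dg ρ x ≤ 16 := by unfold dg; nlinarith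
  unfold MM
  rw [← hu]
  have a1 : tau ρ ^ 2 * (4 * (1 + ρ ^ 2) - x) ≤ tau ρ ^ 2 * 8 :=
    mul_le_mul_of_nonneg_left (by linarith) t0
  have a2 : tau ρ ^ 2 * dg ρ x * x * (2 * u - x ^ 2 * u ^ 2) ≤
      tau ρ ^ 2 * 16 * 4 * (2 * (gam ρ * 16)) := by
    have b1 : 2 * u - x ^ 2 * u ^ 2 ≤ 2 * (gam ρ * 16) := by
      have : 0 ≤ x ^ 2 * u ^ 2 := by positivity
      linarith
    have b2 : tau ρ ^ 2 * dg ρ x ≤ tau ρ ^ 2 * 16 := mul_le_mul_of_nonneg_left d1 t0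
    have b3 : tau ρ ^ 2 * dg ρ x * x ≤ tau ρ ^ 2 * 16 * 4 :=
      mul_le_mul b2 (by linarith) x0 (by positivity)
    have b4 : 0 ≤ tau ρ ^ 2 * dg ρ x * x := by positivity
    calc tau ρ ^ 2 * dg ρ x * x * (2 * u - x ^ 2 * u ^ 2) ≤
        tau ρ ^ 2 * dg ρ x * x * (2 * (gam ρ * 16)) := mul_le_mul_of_nonneg_left b1 b4
      _ ≤ _ := mul_le_mul_of_nonneg_right b3 (by positivity)
  linarith

/-- sign and size of `κ` at the roots -/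
lemma kp_roots {M : ℕ} (hM : ∀ r : ℝ, (1 - ρ) ^ 2 ≤ r → r ≤ (1 + ρ) ^ 2 →
    1 / 2 ≤ hh M ρ (gam ρ) r ∧ hh M ρ (gam ρ) r ≤ 1) {r1 r2 : ℝ} (hr : r2 ≤ r1)
    (hp : r1 * r2 = cc ρ) (a1 : (1 - ρ) ^ 2 ≤ r1) (a2 : r1 ≤ (1 + ρ) ^ 2)
    (a3 : (1 - ρ) ^ 2 ≤ r2) (a4 : r2 ≤ (1 + ρ) ^ 2) :
    (0 ≤ kp M ρ (gam ρ) (tau ρ) r1 ∧ kp M ρ (gam ρ) (tau ρ) r1 ≤ 1) ∧
    (-1 ≤ kp M ρ (gam ρ) (tau ρ) r2 ∧ kp M ρ (gam ρ) (tau ρ) r2 ≤ 0) := by
  have m0 : 0 < (1 - ρ) ^ 2 := by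
    have := sub_pos.2 h1
    positivity
  have p1 : 0 < r1 := by linarith
  have p2 : 0 < r2 := by linarith
  have b1 := abs_le.1 (kp_abs h0 h1 a1 a2 (hM r1 a1 a2))
  have b2 := abs_le.1 (kp_abs h0 h1 a3 a4 (hM r2 a3 a4))
  refine ⟨⟨?_, b1.2⟩, ⟨b2.1, ?_⟩⟩
  · rw [kp_val h0 h1 M a1]
    have : 0 ≤ r1 ^ 2 - cc ρ := by rw [← hp]; nlinarith
    have h2 : 0 ≤ hh M ρ (gam ρ) r1 := by linarith [(hM r1 a1 a2).1]
    positivity
  · rw [kp_val h0 h1 M a3]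
    have : r2 ^ 2 - cc ρ ≤ 0 := by rw [← hp]; nlinarith
    have h2 : 0 ≤ hh M ρ (gam ρ) r2 := by linarith [(hM r2 a3 a4).1]
    exact mul_nonpos_of_nonpos_of_nonneg (div_nonpos_of_nonpos_of_nonneg this (by positivity)) h2

/-- uniform bound of `Bg` -/
lemma Bg_bd {M : ℕ} (hM : ∀ r : ℝ, (1 - ρ) ^ 2 ≤ r → r ≤ (1 + ρ) ^ 2 →
    1 / 2 ≤ hh M ρ (gam ρ) r ∧ hh M ρ (gam ρ) r ≤ 1) : ∃ C : ℝ, ∀ (N : ℕ) (x : ℝ), 0 ≤ x →
    x ≤ 4 * ρ ^ 2 → |Bg M N ρ (gam ρ) (tau ρ) x| ≤ C := by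
  obtain ⟨C0, hC0⟩ : ∃ C0, C0 = tau ρ ^ 2 * 8 + tau ρ ^ 2 * 16 * 4 * (2 * (gam ρ * 16)) := ⟨_, rfl⟩
  have g0 := gam_pos h0 h1
  have C00 : 0 ≤ C0 := by rw [hC0]; positivity
  have hd : 0 < 4 - 4 * ρ ^ 2 := by nlinarith
  refine ⟨2 * C0 / (4 - 4 * ρ ^ 2), fun N x x0 x1 => ?_⟩
  rcases x0.eq_or_lt with hx | hx
  · have : Bg M N ρ (gam ρ) (tau ρ) x = 0 := by
      unfold Bg; rw [← hx]; ring
    rw [this, abs_zero]
    positivity
  obtain ⟨r1, r2, hr, hs, hp, a1, a2, a3, a4⟩ := roots2 h0 h1 x0 x1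
  obtain ⟨⟨k1, k2⟩, k3, k4⟩ := kp_roots h0 h1 hM hr hp a1 a2 a3 a4
  have rel := Bg_rel h0 h1 M N hs hp
  have o1 := one_sub_kp (x := x) (gam_mul h0 h1) (tau_mul h0 h1) hs hp M
  have o2 := one_sub_kp (x := x) (r := r2) (r' := r1) (gam_mul h0 h1) (tau_mul h0 h1)
    (by linarith) (by linarith) M
  have hb : (1 + ρ) ^ 2 ≤ 4 := by nlinarith
  have z1 : 0 ≤ r1 := le_trans (sq_nonneg _) a1
  have z2 : 0 ≤ r2 := le_trans (sq_nonneg _) a3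
  have m1 := MM_bd h0 h1 M x0 x1 z1 (a2.trans hb)
  have m2 := MM_bd h0 h1 M x0 x1 z2 (a4.trans hb)
  rw [← hC0] at m1 m2
  obtain ⟨κ1, hκ1⟩ : ∃ κ, κ = kp M ρ (gam ρ) (tau ρ) r1 := ⟨_, rfl⟩
  obtain ⟨κ2, hκ2⟩ : ∃ κ, κ = kp M ρ (gam ρ) (tau ρ) r2 := ⟨_, rfl⟩
  rw [← hκ1] at k1 k2 rel o1
  rw [← hκ2] at k3 k4 rel o2
  have i1 := it_bd k1 k2 (N + 1)
  have i2 := it_bd (X := -κ2) (by linarith) (by linarith) (N + 1)
  have f1 : |ff (it (N + 1) κ1)| ≤ 1 - κ1 := by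
    rw [abs_of_nonneg (ff_nn _)]
    exact (ff_up (k1.trans i1.1) i1.2).trans (by linarith [i1.1])
  have f2 : |ff (it (N + 1) κ2) - 1| ≤ 1 + κ2 := by
    have e : it (N + 1) κ2 = - it (N + 1) (-κ2) := by rw [it_neg, neg_neg]
    rw [e]
    exact (ff_neg (by linarith [i2.1]) i2.2).trans (by linarith [i2.1])
  have f3 : |x * (4 - x) * Bg M N ρ (gam ρ) (tau ρ) x| ≤ x * (2 * C0) := by
    rw [rel]
    refine (abs_add_le _ _).trans ?_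
    have q1 : 1 - κ1 ≤ 1 - κ1 ^ 2 := by nlinarith
    have q2 : 1 + κ2 ≤ 1 - κ2 ^ 2 := by nlinarith
    have q3 : x * MM M ρ (gam ρ) (tau ρ) x r1 ≤ x * C0 := mul_le_mul_of_nonneg_left m1 x0
    have q4 : x * MM M ρ (gam ρ) (tau ρ) x r2 ≤ x * C0 := mul_le_mul_of_nonneg_left m2 x0
    linarith
  have h4x : 0 < 4 - x := by linarith
  rw [abs_mul, abs_of_pos (mul_pos hx h4x), mul_assoc] at f3
  have f4 : (4 - x) * |Bg M N ρ (gam ρ) (tau ρ) x| ≤ 2 * C0 := le_of_mul_le_mul_left f3 hx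
  rw [le_div_iff₀ hd]
  have : |Bg M N ρ (gam ρ) (tau ρ) x| * (4 - 4 * ρ ^ 2) ≤
      |Bg M N ρ (gam ρ) (tau ρ) x| * (4 - x) :=
    mul_le_mul_of_nonneg_left (by linarith) (abs_nonneg _)
  linarith

/-- pointwise limit of `Bg` -/
lemma Bg_lim {M : ℕ} (hM : ∀ r : ℝ, (1 - ρ) ^ 2 ≤ r → r ≤ (1 + ρ) ^ 2 →
    1 / 2 ≤ hh M ρ (gam ρ) r ∧ hh M ρ (gam ρ) r ≤ 1) {x : ℝ} (x0 : 0 ≤ x)
    (x1 : x ≤ 4 * ρ ^ 2) : Tendsto (fun N => Bg M N ρ (gam ρ) (tau ρ) x) atTop (𝓝 0) := by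
  rcases x0.eq_or_lt with hx | hx
  · refine tendsto_const_nhds.congr fun N => ?_
    unfold Bg; rw [← hx]; ring
  rcases x1.eq_or_lt with hx1 | hx1
  · refine tendsto_const_nhds.congr fun N => ?_
    unfold Bg; rw [hx1]; ring
  obtain ⟨r1, r2, hr, hs, hp, a1, a2, a3, a4⟩ := roots2 h0 h1 x0 x1
  have hd : 0 < dg ρ x := by
    unfold dg
    exact mul_pos (by nlinarith) (by linarith)
  have hne : r2 < r1 := by
    refine lt_of_le_of_ne hr fun h => ?_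
    have : (r1 - r2) ^ 2 = dg ρ x := by
      have e : (r1 - r2) ^ 2 = (r1 + r2) ^ 2 - 4 * (r1 * r2) := by ring
      rw [e, hs, hp]; unfold ss cc dg; ring
    rw [h, sub_self] at this
    norm_num at this
    linarith
  have c0 := c_pos h0 h1
  have m0 : 0 < (1 - ρ) ^ 2 := by
    have := sub_pos.2 h1
    positivity
  have p2 : 0 < r2 := by linarith
  have g1 : 1 - ρ ^ 2 < r1 := by
    by_contra h
    push Not at h
    have : r1 * r2 < (1 - ρ ^ 2) ^ 2 := by nlinarith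
    rw [hp] at this
    unfold cc at this
    linarith
  have g2 : r2 < 1 - ρ ^ 2 := by
    by_contra h
    push Not at h
    have : (1 - ρ ^ 2) ^ 2 < r1 * r2 := by nlinarith
    rw [hp] at this
    unfold cc at this
    linarith
  have s1 := kp_pos h0 h1 a1 g1 (hM r1 a1 a2).1
  have s2 := kp_neg h0 h1 a3 g2 (hM r2 a3 a4).1
  have b1 := abs_le.1 (kp_abs h0 h1 a1 a2 (hM r1 a1 a2))
  have b2 := abs_le.1 (kp_abs h0 h1 a3 a4 (hM r2 a3 a4))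
  have l1 := ff_pos_lim h0 h1 s1 b1.2
  have l2 := (ff_neg_lim h0 h1 s2 b2.1).sub_const 1
  have l3 := (l1.add l2).div_const (x * (4 - x))
  rw [sub_self, add_zero, zero_div] at l3
  refine l3.congr fun N => ?_
  rw [← Bg_rel h0 h1 M N hs hp]
  have h4x : 0 < 4 - x := by nlinarith
  have := (mul_pos hx h4x).ne'
  field_simp

/-- mean squares of `Bg` -/
lemma ms_Bg {M : ℕ} (hM : ∀ r : ℝ, (1 - ρ) ^ 2 ≤ r → r ≤ (1 + ρ) ^ 2 →
    1 / 2 ≤ hh M ρ (gam ρ) r ∧ hh M ρ (gam ρ) r ≤ 1) :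
    Tendsto (fun N : ℕ => ms (fun θ => Bg M N ρ (gam ρ) (tau ρ) (Xf ρ θ))) atTop (𝓝 0) := by
  obtain ⟨C, hC⟩ := Bg_bd h0 h1 hM
  have hX : ∀ θ, 0 ≤ Xf ρ θ ∧ Xf ρ θ ≤ 4 * ρ ^ 2 := by
    intro θ
    unfold Xf
    have a := Real.cos_le_one θ
    have b := Real.neg_one_le_cos θ
    have c : 0 ≤ ρ ^ 2 := sq_nonneg _
    constructor
    · exact mul_nonneg c (by linarith)
    · nlinarith
  refine ms_dom (M := C) (c := 2) (fun N => ?_) (fun N θ => hC N _ (hX θ).1 (hX θ).2)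
    (fun θ _ => Bg_lim h0 h1 hM (hX θ).1 (hX θ).2)
  exact (Bg_ct M N).comp (by fun_prop : Continuous (fun θ : ℝ => ((ρ, gam ρ, tau ρ, θ) : YY)))

lemma cos_iff {θ : ℝ} (t0 : 0 < θ) (t1 : θ ≤ 2 * Real.pi) :
    Real.cos θ < -ρ ↔ θ ∈ Set.Ioo (Real.pi - Real.arccos ρ) (Real.pi + Real.arccos ρ) := by
  have e1 : Real.cos θ = - Real.cos |θ - Real.pi| := by
    rw [Real.cos_abs, Real.cos_sub_pi, neg_neg]
  have e2 : Real.cos (Real.arccos ρ) = ρ := Real.cos_arccos (by linarith) h1.le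
  have k1 : |θ - Real.pi| ≤ Real.pi := by rw [abs_le]; constructor <;> linarith
  have k2 := Real.arccos_nonneg ρ
  have k3 := Real.arccos_le_pi ρ
  have e3 : θ ∈ Set.Ioo (Real.pi - Real.arccos ρ) (Real.pi + Real.arccos ρ) ↔
      |θ - Real.pi| < Real.arccos ρ := by
    rw [abs_lt, Set.mem_Ioo]
    constructor
    · rintro ⟨a, b⟩; constructor <;> linarith
    · rintro ⟨a, b⟩; constructor <;> linarith
  rw [e3, e1]
  constructor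
  · intro h
    have h2 : Real.cos (Real.arccos ρ) < Real.cos |θ - Real.pi| := by rw [e2]; linarith
    exact (Real.strictAntiOn_cos.lt_iff_gt ⟨k2, k3⟩ ⟨abs_nonneg _, k1⟩).1 h2
  · intro h
    have h2 : Real.cos (Real.arccos ρ) < Real.cos |θ - Real.pi| :=
      Real.strictAntiOn_cos ⟨abs_nonneg _, k1⟩ ⟨k2, k3⟩ h
    rw [e2] at h2
    linarith

/-- mean squares of the two halves -/
lemma ms_P {M : ℕ} (hM : ∀ r : ℝ, (1 - ρ) ^ 2 ≤ r → r ≤ (1 + ρ) ^ 2 →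
    1 / 2 ≤ hh M ρ (gam ρ) r ∧ hh M ρ (gam ρ) r ≤ 1) :
    Tendsto (fun N : ℕ => ms (fun θ => P1 M (N + 1) ρ (gam ρ) (tau ρ) (Rf ρ θ)) +
      ms (fun θ => P2 M (N + 1) ρ (gam ρ) (tau ρ) (Rf ρ θ))) atTop
      (𝓝 (Real.arccos ρ / Real.pi)) := by
  have hR : ∀ θ, (1 - ρ) ^ 2 ≤ Rf ρ θ ∧ Rf ρ θ ≤ (1 + ρ) ^ 2 := by
    intro θ
    unfold Rf
    have a := Real.cos_le_one θ
    have b := Real.neg_one_le_cos θ
    constructor <;> nlinarith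
  have cy : Continuous (fun θ : ℝ => ((ρ, gam ρ, tau ρ, θ) : YY)) := by fun_prop
  have ct1 : ∀ N, Continuous (fun θ => P1 M (N + 1) ρ (gam ρ) (tau ρ) (Rf ρ θ)) := fun N =>
    (P1_ct M (N + 1)).comp cy
  have ct2 : ∀ N, Continuous (fun θ => P2 M (N + 1) ρ (gam ρ) (tau ρ) (Rf ρ θ)) := fun N =>
    (P2_ct M (N + 1)).comp cy
  obtain ⟨a, ha⟩ : ∃ a, a = Real.arccos ρ := ⟨_, rfl⟩
  have a0 : 0 ≤ a := by rw [ha]; exact Real.arccos_nonneg ρ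
  have a1 : a ≤ Real.pi := by rw [ha]; exact Real.arccos_le_pi ρ
  have pp := Real.pi_pos
  have key : Tendsto (fun N : ℕ => ∫ θ in (0 : ℝ)..(2 * Real.pi),
      ff (it (N + 1) (kp M ρ (gam ρ) (tau ρ) (Rf ρ θ)))) atTop
      (𝓝 (∫ θ in (0 : ℝ)..(2 * Real.pi),
        Set.indicator (Set.Ioo (Real.pi - a) (Real.pi + a)) (fun _ => (1 : ℝ)) θ)) := by
    refine intervalIntegral.tendsto_integral_filter_of_dominated_convergence (fun _ => 1)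
      (Eventually.of_forall fun N => ?_) (Eventually.of_forall fun N => ae_of_all _ fun θ _ => ?_)
      intervalIntegrable_const ?_
    · have e : (fun θ => ff (it (N + 1) (kp M ρ (gam ρ) (tau ρ) (Rf ρ θ)))) = fun θ =>
          P1 M (N + 1) ρ (gam ρ) (tau ρ) (Rf ρ θ) ^ 2 +
          P2 M (N + 1) ρ (gam ρ) (tau ρ) (Rf ρ θ) ^ 2 := by
        funext θ; rw [P_sq, sg_it]
      rw [e]
      exact (((ct1 N).pow 2).add ((ct2 N).pow 2)).aestronglyMeasurable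
    · rw [Real.norm_eq_abs, abs_of_nonneg (ff_nn _)]
      have b1 := abs_le.1 (kp_abs h0 h1 (hR θ).1 (hR θ).2 (hM _ (hR θ).1 (hR θ).2))
      obtain ⟨κ, hκ⟩ : ∃ κ, κ = kp M ρ (gam ρ) (tau ρ) (Rf ρ θ) := ⟨_, rfl⟩
      rw [← hκ] at b1 ⊢
      rcases le_total 0 κ with h | h
      · have i := it_bd h b1.2 (N + 1)
        exact ff_le (by linarith [i.1]) i.2
      · have i := it_bd (X := -κ) (by linarith) (by linarith [b1.1]) (N + 1)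
        have e : it (N + 1) κ = - it (N + 1) (-κ) := by rw [it_neg, neg_neg]
        rw [e]
        exact ff_le (by linarith [i.2]) (by linarith [i.1])
    · have h6 : ∀ᵐ θ : ℝ, θ ∉ {θ : ℝ | Real.cos θ = -ρ} :=
        measure_eq_zero_iff_ae_notMem.1 ((Pool.Agent.J4H76.TP.cnt _).measure_zero volume)
      filter_upwards [h6] with θ hθ hθ2
      rw [Set.uIoc_of_le (by positivity)] at hθ2
      have hc := cos_iff h0 h1 hθ2.1 hθ2.2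
      rw [← ha] at hc
      have b1 := abs_le.1 (kp_abs h0 h1 (hR θ).1 (hR θ).2 (hM _ (hR θ).1 (hR θ).2))
      rcases lt_trichotomy (Real.cos θ) (-ρ) with h | h | h
      · rw [Set.indicator_of_mem (hc.1 h)]
        have hr : Rf ρ θ < 1 - ρ ^ 2 := by unfold Rf; nlinarith
        exact ff_neg_lim h0 h1 (kp_neg h0 h1 (hR θ).1 hr (hM _ (hR θ).1 (hR θ).2).1) b1.1
      · exact absurd h hθ
      · have hn : θ ∉ Set.Ioo (Real.pi - a) (Real.pi + a) := fun h2 => by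
          have := hc.2 h2
          linarith
        rw [Set.indicator_of_notMem hn]
        have hr : 1 - ρ ^ 2 < Rf ρ θ := by unfold Rf; nlinarith
        exact ff_pos_lim h0 h1 (kp_pos h0 h1 (hR θ).1 hr (hM _ (hR θ).1 (hR θ).2).1) b1.2
  have val : ∫ θ in (0 : ℝ)..(2 * Real.pi),
      Set.indicator (Set.Ioo (Real.pi - a) (Real.pi + a)) (fun _ => (1 : ℝ)) θ = 2 * a := by
    rw [intervalIntegral.integral_of_le (by positivity), setIntegral_indicator measurableSet_Ioo]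
    have e : Set.Ioc 0 (2 * Real.pi) ∩ Set.Ioo (Real.pi - a) (Real.pi + a) =
        Set.Ioo (Real.pi - a) (Real.pi + a) := by
      refine Set.inter_eq_self_of_subset_right fun θ h => ?_
      exact ⟨by linarith [h.1], by linarith [h.2]⟩
    rw [e, setIntegral_const]
    simp only [smul_eq_mul, mul_one]
    rw [Measure.real, Real.volume_Ioo, ENNReal.toReal_ofReal (by linarith)]
    ring
  rw [val] at key
  have k2 := key.const_mul (1 / (2 * Real.pi))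
  have e : 1 / (2 * Real.pi) * (2 * a) = Real.arccos ρ / Real.pi := by
    rw [ha]; field_simp
  rw [e] at k2
  refine k2.congr fun N => ?_
  unfold ms
  rw [← mul_add]
  congr 1
  have ia := intervalIntegral.integral_add (a := 0) (b := 2 * Real.pi) (μ := volume)
    (((ct1 N).pow 2).intervalIntegrable _ _) (((ct2 N).pow 2).intervalIntegrable _ _)
  refine Eq.trans ?_ ia
  refine intervalIntegral.integral_congr fun θ _ => ?_
  show ff (it (N + 1) (kp M ρ (gam ρ) (tau ρ) (Rf ρ θ))) =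
    P1 M (N + 1) ρ (gam ρ) (tau ρ) (Rf ρ θ) ^ 2 + P2 M (N + 1) ρ (gam ρ) (tau ρ) (Rf ρ θ) ^ 2
  rw [P_sq, sg_it]

end

end

end Pool.Agent.J4H76.LB
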