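import Pool.Agent.J4H76.TP.Main
import Pool.Agent.J4H76.LB.Quad
import Pool.Agent.J4H76.LB.Real2

/-! The lower bound for two ladder systems. -/
set_option autoImplicit false
open MeasureTheory Filter Topology Complex Set
open scoped ContDiff Real Manifold

namespace Pool.Agent.J4H76.LB

open Pool.Agent.W745.RW Pool.Agent.TH294.RS Pool.Agent.Y265.HY Pool.Agent.R314.JN
open Pool.Agent.J4H76.TP
open AddMonoidAlgebra (single)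

noncomputable section

variable {B : Set ℂ} {h κ : ℕ → ℝ} {w v : ℤ → ℕ → ℂ → ℂ}

lemma ez_P1 (M N : ℕ) (ρ γ τ : BS) (θ : ℝ) (n : ℕ) :
    ez (ex θ) n (P1 M N (cs ρ) (cs γ) (cs τ) (rr ρ)) =
      ((P1 M N (ρ.1 n) (γ.1 n) (τ.1 n) (Rf (ρ.1 n) θ) : ℝ) : ℂ) := by
  rw [map_P1, ez_cs, ez_cs, ez_cs, ez_rr]
  have h := map_P1 Complex.ofRealAm M N (ρ.1 n) (γ.1 n) (τ.1 n) (Rf (ρ.1 n) θ)
  simp only [Complex.ofRealAm_coe] at h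
  exact h.symm

lemma ez_P2 (M N : ℕ) (ρ γ τ : BS) (θ : ℝ) (n : ℕ) :
    ez (ex θ) n (P2 M N (cs ρ) (cs γ) (cs τ) (rr ρ)) =
      ((P2 M N (ρ.1 n) (γ.1 n) (τ.1 n) (Rf (ρ.1 n) θ) : ℝ) : ℂ) := by
  rw [map_P2, ez_cs, ez_cs, ez_cs, ez_rr]
  have h := map_P2 Complex.ofRealAm M N (ρ.1 n) (γ.1 n) (τ.1 n) (Rf (ρ.1 n) θ)
  simp only [Complex.ofRealAm_coe] at h
  exact h.symm

lemma ez_Bg (M N : ℕ) (ρ γ τ : BS) (θ : ℝ) (n : ℕ) :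
    ez (ex θ) n (Bg M N (cs ρ) (cs γ) (cs τ) (xw ρ)) =
      ((Bg M N (ρ.1 n) (γ.1 n) (τ.1 n) (Xf (ρ.1 n) θ) : ℝ) : ℂ) := by
  rw [map_Bg, ez_cs, ez_cs, ez_cs, ez_xw]
  have h := map_Bg Complex.ofRealAm M N (ρ.1 n) (γ.1 n) (τ.1 n) (Xf (ρ.1 n) θ)
  simp only [Complex.ofRealAm_coe] at h
  exact h.symm

lemma N2_P1 (M N : ℕ) (ρ γ τ : BS) (n : ℕ) :
    N2 (P1 M N (cs ρ) (cs γ) (cs τ) (rr ρ)) n =
      ms (fun θ => P1 M N (ρ.1 n) (γ.1 n) (τ.1 n) (Rf (ρ.1 n) θ)) :=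
  N2_real (fun θ => ez_P1 M N ρ γ τ θ n) fun θ => by unfold Rf; rw [Real.cos_neg]

lemma N2_P2 (M N : ℕ) (ρ γ τ : BS) (n : ℕ) :
    N2 (P2 M N (cs ρ) (cs γ) (cs τ) (rr ρ)) n =
      ms (fun θ => P2 M N (ρ.1 n) (γ.1 n) (τ.1 n) (Rf (ρ.1 n) θ)) :=
  N2_real (fun θ => ez_P2 M N ρ γ τ θ n) fun θ => by unfold Rf; rw [Real.cos_neg]

lemma N2_Bg (M N : ℕ) (ρ γ τ : BS) (n : ℕ) :
    N2 (Bg M N (cs ρ) (cs γ) (cs τ) (xw ρ)) n =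
      ms (fun θ => Bg M N (ρ.1 n) (γ.1 n) (τ.1 n) (Xf (ρ.1 n) θ)) :=
  N2_real (fun θ => ez_Bg M N ρ γ τ θ n) fun θ => by unfold Xf; rw [Real.cos_neg]

lemma Bg_at0 (M N : ℕ) (ρ γ τ : BS) (n : ℕ) :
    ez (ex 0) n (Bg M N (cs ρ) (cs γ) (cs τ) (xw ρ)) = 0 := by
  rw [ez_Bg]
  have e : Xf (ρ.1 n) 0 = 4 * (ρ.1 n) ^ 2 := by unfold Xf; rw [Real.cos_zero]; ring
  rw [e]
  have : Bg M N (ρ.1 n) (γ.1 n) (τ.1 n) (4 * (ρ.1 n) ^ 2) = 0 := by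
    unfold Bg; ring
  rw [this, ofReal_zero]

lemma Bg_atpi (M N : ℕ) (ρ γ τ : BS) (n : ℕ) :
    ez (ex Real.pi) n (Bg M N (cs ρ) (cs γ) (cs τ) (xw ρ)) = 0 := by
  rw [ez_Bg]
  have e : Xf (ρ.1 n) Real.pi = 0 := by unfold Xf; rw [Real.cos_pi]; ring
  rw [e]
  have : Bg M N (ρ.1 n) (γ.1 n) (τ.1 n) 0 = 0 := by
    unfold Bg; ring
  rw [this, ofReal_zero]

/-- **the core estimate** -/
theorem core (H : SY B Complex.im h w) (H' : SY B Complex.im κ v) (hBU : B ⊆ UH) {C : ℝ}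
    (hC : ∀ n, h n ≤ C * κ n) (hC' : ∀ n, κ n ≤ C * h n) (h0 : EX B h w (w 0))
    (k0 : EX B κ v (v 0)) {φ : ℂ → ℝ} (hφ : TF B φ) (hφ0 : ∀ z, 0 ≤ φ z) (ρ γ τ : BS)
    (hρ : ∀ n, ρ.1 n = h n / κ n) (hγ : γ * cc ρ ^ 2 = 1) (hτ : τ ^ 2 * (16 * ρ ^ 2) = 1)
    (M N : ℕ) {θ d : ℝ} (hθ0 : 0 < θ) (hd : 0 < d) :
    ∀ᶠ n in atTop, (∫ z, φ z) -
      2 * (N2 (P1 M (N + 1) (cs ρ) (cs γ) (cs τ) (rr ρ)) n +
        N2 (P2 M (N + 1) (cs ρ) (cs γ) (cs τ) (rr ρ)) n) * (∫ z, φ z) -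
      (θ / 2 * (2 * N2 A1 n * (∫ z, φ z) + 1) +
      1 / (2 * θ) * (2 * N2 (Bg M N (cs ρ) (cs γ) (cs τ) (xw ρ)) n * (∫ z, φ z) + d)) - d ≤
      (J4 w v φ 0 0 0 0 n).re := by
  obtain ⟨m, hm⟩ : ∃ m : ℝ, m = ∫ z, φ z := ⟨_, rfl⟩
  have a1 := sf_bd H hBU h0 hφ hφ0 A1 A1_0 A1_pi (ε := 1) one_pos
  have a2 := sf_bd H' hBU k0 hφ hφ0 (Bg M N (cs ρ) (cs γ) (cs τ) (xw ρ)) (Bg_at0 M N ρ γ τ)
    (Bg_atpi M N ρ γ τ) hd
  have q := lb (qs H H' hBU hC hC' h0 k0 hφ ρ hρ) γ τ hγ hτ M N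
  rw [tendsto_zero_iff_norm_tendsto_zero] at q
  obtain ⟨p1, hp1⟩ : ∃ p, p = P1 M (N + 1) (cs ρ) (cs γ) (cs τ) (rr ρ) := ⟨_, rfl⟩
  obtain ⟨p2, hp2⟩ : ∃ p, p = P2 M (N + 1) (cs ρ) (cs γ) (cs τ) (rr ρ) := ⟨_, rfl⟩
  obtain ⟨b, hb⟩ : ∃ b, b = Bg M N (cs ρ) (cs γ) (cs τ) (xw ρ) := ⟨_, rfl⟩
  rw [← hb] at a2 ⊢
  rw [← hp1, ← hp2]
  rw [← hp1, ← hp2, ← hb] at q
  filter_upwards [a1, a2, q.eventually (gt_mem_nhds hd)] with n h3 h4 h5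
  rw [JD_P H H' hφ, JD_P H H' hφ, JD_AB H H' hφ A1 b n (A1_pi n), ← hm] at h5
  rw [← hm] at h3 h4 ⊢
  have b1 := cs_ab hφ hφ0 (sf_cont H A1 n) (sf_cont H' b n) hθ0
  have e0 : JD w v φ (0, 0, 0, 0) n = J4 w v φ 0 0 0 0 n - ((m : ℝ) : ℂ) := by
    simp only [JD]
    rw [← hm]
    have : CC 0 0 = 1 := by unfold CC; simp
    rw [this]; ring
  rw [e0] at h5
  obtain ⟨D1, hD1⟩ : ∃ D : ℝ, D = ∫ z, φ z * ‖Pn w v p1 n z‖ ^ 2 := ⟨_, rfl⟩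
  obtain ⟨D2, hD2⟩ : ∃ D : ℝ, D = ∫ z, φ z * ‖Pn w v p2 n z‖ ^ 2 := ⟨_, rfl⟩
  have D10 : 0 ≤ D1 := by
    rw [hD1]; exact integral_nonneg fun z => mul_nonneg (hφ0 z) (sq_nonneg _)
  have D20 : 0 ≤ D2 := by
    rw [hD2]; exact integral_nonneg fun z => mul_nonneg (hφ0 z) (sq_nonneg _)
  obtain ⟨X, hX⟩ : ∃ X : ℂ, X = ∫ z, (φ z : ℂ) * (sf w A1 n z * sf v b n z) := ⟨_, rfl⟩
  obtain ⟨J, hJ⟩ : ∃ J : ℂ, J = J4 w v φ 0 0 0 0 n := ⟨_, rfl⟩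
  rw [← hD1, ← hD2, ← hX, ← hJ] at h5
  rw [← hX] at b1
  rw [← hJ]
  obtain ⟨n1, hn1⟩ : ∃ n1, n1 = N2 p1 n := ⟨_, rfl⟩
  obtain ⟨n2, hn2⟩ : ∃ n2, n2 = N2 p2 n := ⟨_, rfl⟩
  rw [← hn1, ← hn2] at h5 ⊢
  have r1 := (Complex.abs_re_le_norm _).trans h5.le
  have e1 : (2 * (((D1 : ℝ) : ℂ) - ((n1 : ℝ) : ℂ) * ((m : ℝ) : ℂ) +
      (((D2 : ℝ) : ℂ) - ((n2 : ℝ) : ℂ) * ((m : ℝ) : ℂ))) - (J - ((m : ℝ) : ℂ)) - X).re =
      2 * ((D1 - n1 * m) + (D2 - n2 * m)) - (J.re - m) - X.re := by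
    have : 2 * (((D1 : ℝ) : ℂ) - ((n1 : ℝ) : ℂ) * ((m : ℝ) : ℂ) +
      (((D2 : ℝ) : ℂ) - ((n2 : ℝ) : ℂ) * ((m : ℝ) : ℂ))) - (J - ((m : ℝ) : ℂ)) - X =
      ((2 * ((D1 - n1 * m) + (D2 - n2 * m)) + m : ℝ) : ℂ) - J - X := by push_cast; ring
    rw [this, sub_re, sub_re, ofReal_re]; ring
  rw [e1] at r1
  have r2 := (abs_le.1 r1).2
  have r3 : -‖X‖ ≤ -X.re := by
    have := (le_abs_self _).trans (Complex.abs_re_le_norm X)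
    linarith
  have b3 : θ / 2 * (∫ z, φ z * ‖sf w A1 n z‖ ^ 2) ≤ θ / 2 * (2 * N2 A1 n * m + 1) :=
    mul_le_mul_of_nonneg_left h3 (by positivity)
  have b4 : 1 / (2 * θ) * (∫ z, φ z * ‖sf v b n z‖ ^ 2) ≤
      1 / (2 * θ) * (2 * N2 b n * m + d) :=
    mul_le_mul_of_nonneg_left h4 (by positivity)
  linarith

/-- the value at the index `n` -/
def vh (n : ℕ) : BS →ₐ[ℝ] ℝ where
  toFun r := r.1 n
  map_one' := BS.one_ap n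
  map_mul' r s := BS.mul_ap r s n
  map_zero' := BS.zero_ap n
  map_add' r s := BS.add_ap r s n
  commutes' r := BS.map_ap r n

lemma vh_ap (n : ℕ) (r : BS) : vh n r = r.1 n := rfl

lemma BS_ext {r s : BS} (h : ∀ n, vh n r = vh n s) : r = s :=
  Subtype.ext (funext h)

/-- **the lower bound** -/
theorem main (H : SY B Complex.im h w) (H' : SY B Complex.im κ v) (hBU : B ⊆ UH)
    (h0 : EX B h w (w 0)) (k0 : EX B κ v (v 0)) {ρ0 δ : ℝ} (hδ : 0 < δ)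
    (hρ : ∀ n, δ ≤ h n / κ n ∧ h n / κ n ≤ 1 - δ)
    (hl : Tendsto (fun n => h n / κ n) atTop (𝓝 ρ0)) {φ : ℂ → ℝ} (hφ : TF B φ)
    (hφ0 : ∀ z, 0 ≤ φ z) {e : ℝ} (he : 0 < e) :
    ∀ᶠ n in atTop, 2 / Real.pi * Real.arcsin ρ0 * (∫ z, φ z) - e ≤
      (J4 w v φ 0 0 0 0 n).re := by
  have hρ0 : 0 < ρ0 := lt_of_lt_of_le hδ (ge_of_tendsto' hl fun n => (hρ n).1)
  have hρ1 : ρ0 < 1 := lt_of_le_of_lt (le_of_tendsto' hl fun n => (hρ n).2) (by linarith)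
  have hpos : ∀ n, 0 < h n / κ n := fun n => lt_of_lt_of_le hδ (hρ n).1
  have hlt : ∀ n, h n / κ n < 1 := fun n => lt_of_le_of_lt (hρ n).2 (by linarith)
  -- the parameters
  obtain ⟨ρ, hρ'⟩ : ∃ ρ : BS, ∀ n, ρ.1 n = h n / κ n :=
    ⟨⟨fun n => h n / κ n, 1, fun n => by rw [abs_of_pos (hpos n)]; exact (hlt n).le⟩, fun _ => rfl⟩
  obtain ⟨γ, hγ'⟩ : ∃ γ : BS, ∀ n, γ.1 n = gam (h n / κ n) := by
    refine ⟨⟨fun n => gam (h n / κ n), 1 / δ ^ 4, fun n => ?_⟩, fun _ => rfl⟩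
    show |gam (h n / κ n)| ≤ 1 / δ ^ 4
    rw [abs_of_pos (gam_pos (hpos n) (hlt n))]
    unfold gam
    have a : δ ≤ 1 - (h n / κ n) ^ 2 := by nlinarith [hpos n, hlt n, (hρ n).2]
    exact one_div_le_one_div_of_le (by positivity) (pow_le_pow_left₀ hδ.le a 4)
  obtain ⟨τ, hτ'⟩ : ∃ τ : BS, ∀ n, τ.1 n = tau (h n / κ n) := by
    refine ⟨⟨fun n => tau (h n / κ n), 1 / (4 * δ), fun n => ?_⟩, fun _ => rfl⟩
    show |tau (h n / κ n)| ≤ 1 / (4 * δ)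
    unfold tau
    rw [abs_of_pos (by have := hpos n; positivity)]
    exact one_div_le_one_div_of_le (by positivity) (by linarith [(hρ n).1])
  have hγ : γ * cc ρ ^ 2 = 1 := by
    refine BS_ext fun n => ?_
    rw [map_mul, map_pow, map_cc, map_one, vh_ap, vh_ap, hγ', hρ']
    exact gam_mul (hpos n) (hlt n)
  have hτ : τ ^ 2 * (16 * ρ ^ 2) = 1 := by
    refine BS_ext fun n => ?_
    rw [map_mul, map_pow, map_mul, map_pow, map_ofNat, map_one, vh_ap, vh_ap, hτ', hρ']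
    exact tau_mul (hpos n) (hlt n)
  obtain ⟨C, hC, hC'⟩ : ∃ C : ℝ, (∀ n, h n ≤ C * κ n) ∧ (∀ n, κ n ≤ C * h n) := by
    refine ⟨max 1 (1 / δ), fun n => ?_, fun n => ?_⟩
    · have a := H'.hpos n
      have b := (hlt n).le
      rw [div_le_iff₀ a] at b
      exact b.trans (mul_le_mul_of_nonneg_right (le_max_left _ _) a.le)
    · have a := H'.hpos n
      have a' := H.hpos n
      have b := (hρ n).1
      rw [le_div_iff₀ a] at b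
      have c : κ n ≤ 1 / δ * h n := by
        rw [one_div, ← div_eq_inv_mul, le_div_iff₀ hδ]; linarith
      exact c.trans (mul_le_mul_of_nonneg_right (le_max_right _ _) a'.le)
  -- limits of the parameters
  have l1 : Tendsto (fun n => ρ.1 n) atTop (𝓝 ρ0) := by simpa only [hρ'] using hl
  have l2 : Tendsto (fun n => γ.1 n) atTop (𝓝 (gam ρ0)) := by
    simp only [hγ']
    have c : ContinuousAt gam ρ0 := by
      unfold gam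
      refine ContinuousAt.div continuousAt_const (by fun_prop) ?_
      have := c_pos hρ0 hρ1
      positivity
    exact c.tendsto.comp hl
  have l3 : Tendsto (fun n => τ.1 n) atTop (𝓝 (tau ρ0)) := by
    simp only [hτ']
    have c : ContinuousAt tau ρ0 := by
      unfold tau
      refine ContinuousAt.div continuousAt_const (by fun_prop) ?_
      positivity
    exact c.tendsto.comp hl
  obtain ⟨M, hM⟩ := exM hρ0 hρ1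
  obtain ⟨m, hm⟩ : ∃ m : ℝ, m = ∫ z, φ z := ⟨_, rfl⟩
  have m0 : 0 ≤ m := by rw [hm]; exact integral_nonneg hφ0
  obtain ⟨KA, hKA⟩ : ∃ KA : ℝ, ∀ n, N2 A1 n = KA := ⟨_, fun n => N2_A1 n⟩
  have KA0 : 0 ≤ KA := by rw [← hKA 0]; exact N2_nonneg _ _
  obtain ⟨θ, hθ⟩ : ∃ θ : ℝ, θ = e / (4 * (2 * KA * m + 1)) := ⟨_, rfl⟩
  have hd0 : 0 < 2 * KA * m + 1 := by positivity
  have hθ0 : 0 < θ := by rw [hθ]; positivity
  have hθe : θ / 2 * (2 * KA * m + 1) = e / 8 := by rw [hθ]; field_simp; norm_num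
  obtain ⟨d, hdd⟩ : ∃ d : ℝ, d = min (e / 4) (θ * e / 4) := ⟨_, rfl⟩
  have d0 : 0 < d := by rw [hdd]; exact lt_min (by positivity) (by positivity)
  have d1 : d ≤ e / 4 := by rw [hdd]; exact min_le_left _ _
  have d2 : d ≤ θ * e / 4 := by rw [hdd]; exact min_le_right _ _
  -- choice of the number of iterations
  have lP : Tendsto (fun N : ℕ => 2 * (ms (fun θ => P1 M (N + 1) ρ0 (gam ρ0) (tau ρ0) (Rf ρ0 θ)) +
      ms (fun θ => P2 M (N + 1) ρ0 (gam ρ0) (tau ρ0) (Rf ρ0 θ))) * m) atTop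
      (𝓝 (2 * (Real.arccos ρ0 / Real.pi) * m)) :=
    ((ms_P hρ0 hρ1 hM).const_mul 2).mul_const m
  have lB : Tendsto (fun N : ℕ => 2 * ms (fun θ => Bg M N ρ0 (gam ρ0) (tau ρ0) (Xf ρ0 θ)) * m)
      atTop (𝓝 0) := by
    have := ((ms_Bg hρ0 hρ1 hM).const_mul 2).mul_const m
    rwa [mul_zero, zero_mul] at this
  obtain ⟨N, hN1, hN2⟩ := ((lP.eventually (gt_mem_nhds
    (lt_add_of_pos_right (2 * (Real.arccos ρ0 / Real.pi) * m)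
      (show (0 : ℝ) < e / 4 by positivity)))).and
    (lB.eventually (gt_mem_nhds (show 0 < θ * e / 4 by positivity)))).exists
  have mP : Tendsto (fun n => 2 * (N2 (P1 M (N + 1) (cs ρ) (cs γ) (cs τ) (rr ρ)) n +
      N2 (P2 M (N + 1) (cs ρ) (cs γ) (cs τ) (rr ρ)) n) * m) atTop
      (𝓝 (2 * (ms (fun θ => P1 M (N + 1) ρ0 (gam ρ0) (tau ρ0) (Rf ρ0 θ)) +
      ms (fun θ => P2 M (N + 1) ρ0 (gam ρ0) (tau ρ0) (Rf ρ0 θ))) * m)) := by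
    have := (((ms_tend (P1_ct M (N + 1)) l1 l2 l3).add
      (ms_tend (P2_ct M (N + 1)) l1 l2 l3)).const_mul 2).mul_const m
    refine this.congr fun n => ?_
    rw [N2_P1, N2_P2]
  have mB : Tendsto (fun n => 2 * N2 (Bg M N (cs ρ) (cs γ) (cs τ) (xw ρ)) n * m) atTop
      (𝓝 (2 * ms (fun θ => Bg M N ρ0 (gam ρ0) (tau ρ0) (Xf ρ0 θ)) * m)) := by
    have := ((ms_tend (Bg_ct M N) l1 l2 l3).const_mul 2).mul_const m
    refine this.congr fun n => ?_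
    rw [N2_Bg]
  filter_upwards [mP.eventually (gt_mem_nhds hN1), mB.eventually (gt_mem_nhds hN2),
    core H H' hBU hC hC' h0 k0 hφ hφ0 ρ γ τ hρ' hγ hτ M N hθ0 d0] with n h1 h2 h3
  rw [← hm, hKA, hθe] at h3
  rw [← hm]
  have b4 : 1 / (2 * θ) * (2 * N2 (Bg M N (cs ρ) (cs γ) (cs τ) (xw ρ)) n * m + d) ≤ e / 4 := by
    have : 1 / (2 * θ) * (2 * N2 (Bg M N (cs ρ) (cs γ) (cs τ) (xw ρ)) n * m + d) ≤
        1 / (2 * θ) * (2 * (θ * e / 4)) :=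
      mul_le_mul_of_nonneg_left (by linarith) (by positivity)
    have e2 : 1 / (2 * θ) * (2 * (θ * e / 4)) = e / 4 := by field_simp
    linarith
  have e5 : 2 * (Real.arccos ρ0 / Real.pi) * m = m - 2 / Real.pi * Real.arcsin ρ0 * m := by
    rw [Real.arccos_eq_pi_div_two_sub_arcsin]
    have := Real.pi_pos.ne'
    field_simp
  rw [e5] at h1
  linarith

end

end Pool.Agent.J4H76.LB
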