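import Pool.Agent.J4H76.LB.Tr
import Pool.Agent.J4H76.TP.Lim

/-! Real analysis of the symbols. -/
set_option autoImplicit false
open Filter Topology MeasureTheory

namespace Pool.Agent.J4H76.LB

noncomputable section

/-- iteration of the smoothing map -/
def it : ℕ → ℝ → ℝ
  | 0, X => X
  | (N + 1), X => 1 / 2 * (3 * it N X - it N X ^ 3)

lemma sg_it (M : ℕ) : ∀ (N : ℕ) (ρ γ τ r : ℝ), sg M N ρ γ τ r = it N (kp M ρ γ τ r)
  | 0, ρ, γ, τ, r => rfl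
  | (N + 1), ρ, γ, τ, r => by
    rw [sg, it, sg_it M N]; rfl

lemma it_neg : ∀ (N : ℕ) (X : ℝ), it N (-X) = - it N X
  | 0, X => rfl
  | (N + 1), X => by rw [it, it, it_neg N]; ring

lemma it_bd {X : ℝ} (h0 : 0 ≤ X) (h1 : X ≤ 1) : ∀ N : ℕ, X ≤ it N X ∧ it N X ≤ 1
  | 0 => ⟨le_rfl, h1⟩
  | (N + 1) => by
    obtain ⟨a, b⟩ := it_bd h0 h1 N
    rw [it]
    obtain ⟨σ, hσ⟩ : ∃ σ, σ = it N X := ⟨_, rfl⟩
    rw [← hσ] at a b ⊢
    have s0 : 0 ≤ σ := h0.trans a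
    constructor
    · have : 0 ≤ σ * (1 - σ) * (1 + σ) := by
        have := sub_nonneg.2 b
        positivity
      nlinarith
    · have : 0 ≤ (1 - σ) ^ 2 * (2 + σ) := by positivity
      nlinarith

lemma it_geo {X : ℝ} (h0 : 0 ≤ X) (h1 : X ≤ 1) : ∀ N : ℕ, 1 - it N X ≤ (1 - X / 2) ^ N * (1 - X)
  | 0 => by simp [it]
  | (N + 1) => by
    obtain ⟨a, b⟩ := it_bd h0 h1 N
    have ih := it_geo h0 h1 N
    rw [it]
    obtain ⟨σ, hσ⟩ : ∃ σ, σ = it N X := ⟨_, rfl⟩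
    rw [← hσ] at a b ih ⊢
    have s0 : 0 ≤ σ := h0.trans a
    have e : 1 - 1 / 2 * (3 * σ - σ ^ 3) = (1 - σ) * (1 / 2 * ((1 - σ) * (2 + σ))) := by ring
    have l1 : 1 / 2 * ((1 - σ) * (2 + σ)) ≤ 1 - X / 2 := by nlinarith
    have l0 : 0 ≤ 1 - σ := sub_nonneg.2 b
    rw [e]
    calc (1 - σ) * (1 / 2 * ((1 - σ) * (2 + σ))) ≤ (1 - σ) * (1 - X / 2) :=
          mul_le_mul_of_nonneg_left l1 l0
      _ ≤ ((1 - X / 2) ^ N * (1 - X)) * (1 - X / 2) :=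
          mul_le_mul_of_nonneg_right ih (by linarith)
      _ = _ := by ring

lemma it_lim {X : ℝ} (h0 : 0 < X) (h1 : X ≤ 1) : Tendsto (fun N => it N X) atTop (𝓝 1) := by
  have h2 : Tendsto (fun N : ℕ => (1 - X / 2) ^ N * (1 - X)) atTop (𝓝 0) := by
    have := (tendsto_pow_atTop_nhds_zero_of_lt_one (r := 1 - X / 2) (by linarith)
      (by linarith)).mul_const (1 - X)
    rwa [zero_mul] at this
  have h3 : Tendsto (fun N => 1 - it N X) atTop (𝓝 0) :=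
    squeeze_zero (fun N => sub_nonneg.2 (it_bd h0.le h1 N).2) (it_geo h0.le h1) h2
  have h4 := h3.const_sub 1
  rw [sub_zero] at h4
  exact h4.congr fun N => by ring

lemma e2_real : e2 ℝ = 1 / 2 := rfl

lemma ff_real (σ : ℝ) : ff σ = 1 / 2 - 1 / 2 * σ - 1 / 4 * (σ ^ 2 * (1 - σ ^ 2)) := by
  unfold ff; rw [e2_real]; ring

lemma ff_cont : Continuous (fun σ : ℝ => ff σ) := by
  simp only [ff_real]; fun_prop

lemma ff_up {σ : ℝ} (h0 : 0 ≤ σ) (h1 : σ ≤ 1) : ff σ ≤ 1 - σ := by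
  rw [ff_real]
  have : 0 ≤ σ ^ 2 * (1 - σ ^ 2) := by
    have : σ ^ 2 ≤ 1 := by nlinarith
    have := sub_nonneg.2 this
    positivity
  nlinarith

lemma ff_nn (σ : ℝ) : 0 ≤ ff σ := by
  have : ff σ = (1 / 2 * (1 - σ)) ^ 2 + (1 / 2 * (1 - σ ^ 2)) ^ 2 := by rw [ff_real]; ring
  rw [this]; positivity

lemma ff_neg {σ : ℝ} (h0 : 0 ≤ σ) (h1 : σ ≤ 1) : |ff (-σ) - 1| ≤ 1 - σ := by
  rw [ff_real]
  have h2 : 0 ≤ σ ^ 2 * (1 - σ ^ 2) := by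
    have : σ ^ 2 ≤ 1 := by nlinarith
    have := sub_nonneg.2 this
    positivity
  have h3 : σ ^ 2 * (1 - σ ^ 2) ≤ 2 * (1 - σ) := by
    have a1 : σ ^ 2 ≤ 1 := by nlinarith
    have a2 : 1 - σ ^ 2 = (1 - σ) * (1 + σ) := by ring
    have a3 : 0 ≤ 1 - σ := by linarith
    calc σ ^ 2 * (1 - σ ^ 2) ≤ 1 * (1 - σ ^ 2) :=
          mul_le_mul_of_nonneg_right a1 (by linarith)
      _ = (1 - σ) * (1 + σ) := by rw [one_mul, a2]
      _ ≤ (1 - σ) * 2 := mul_le_mul_of_nonneg_left (by linarith) a3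
      _ = _ := by ring
  rw [abs_le]
  constructor <;> nlinarith

lemma ff_le {σ : ℝ} (h0 : -1 ≤ σ) (h1 : σ ≤ 1) : ff σ ≤ 1 := by
  have h : ff σ + ff (-σ) = 1 - 1 / 2 * (σ ^ 2 * (1 - σ ^ 2)) := by
    rw [ff_real, ff_real]; ring
  have h2 : 0 ≤ σ ^ 2 * (1 - σ ^ 2) := by
    have : σ ^ 2 ≤ 1 := by nlinarith
    have := sub_nonneg.2 this
    positivity
  have := ff_nn (-σ)
  linarith

/-- the parameters -/
def gam (ρ : ℝ) : ℝ := 1 / (1 - ρ ^ 2) ^ 4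
def tau (ρ : ℝ) : ℝ := 1 / (4 * ρ)

section
variable {ρ : ℝ} (h0 : 0 < ρ) (h1 : ρ < 1)
include h0 h1

lemma c_pos : 0 < 1 - ρ ^ 2 := by nlinarith

lemma gam_pos : 0 < gam ρ := by
  unfold gam
  have := c_pos h0 h1
  positivity

lemma gam_mul : gam ρ * cc ρ ^ 2 = 1 := by
  unfold gam cc
  have := (c_pos h0 h1).ne'
  field_simp

lemma tau_mul : tau ρ ^ 2 * (16 * ρ ^ 2) = 1 := by
  unfold tau
  field_simp
  norm_num

lemma exM : ∃ M : ℕ, ∀ r : ℝ, (1 - ρ) ^ 2 ≤ r → r ≤ (1 + ρ) ^ 2 →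
    1 / 2 ≤ hh M ρ (gam ρ) r ∧ hh M ρ (gam ρ) r ≤ 1 := by
  obtain ⟨b, hb⟩ : ∃ b : ℝ, b = 1 - (1 - ρ) ^ 2 / 4 := ⟨_, rfl⟩
  have hb0 : 0 ≤ b := by rw [hb]; nlinarith
  have hb1 : b < 1 := by
    rw [hb]
    have : 0 < (1 - ρ) ^ 2 := by
      have := sub_pos.2 h1
      positivity
    linarith
  have g0 := gam_pos h0 h1
  have lim : Tendsto (fun M : ℕ => gam ρ * 16 * b ^ M) atTop (𝓝 0) := by
    have := (tendsto_pow_atTop_nhds_zero_of_lt_one hb0 hb1).const_mul (gam ρ * 16)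
    rwa [mul_zero] at this
  obtain ⟨M, hM⟩ := (lim.eventually (gt_mem_nhds (show (0 : ℝ) < 1 / 2 by norm_num))).exists
  refine ⟨M, fun r ra rb => ?_⟩
  have k0 : 0 ≤ 1 - e2 ℝ ^ 2 * r := by rw [e2_real]; nlinarith
  have kb : 1 - e2 ℝ ^ 2 * r ≤ b := by rw [e2_real, hb]; nlinarith
  have q1 : qq ρ r = (r - (1 + ρ) ^ 2) * (r - (1 - ρ) ^ 2) := by unfold qq ss cc; ring
  have q2 : qq ρ r ^ 2 ≤ 16 := by
    have a1 : qq ρ r ≤ 0 := by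
      rw [q1]; exact mul_nonpos_of_nonpos_of_nonneg (by linarith) (by linarith)
    have a2 : -4 ≤ qq ρ r := by
      have : qq ρ r = (r - (1 + ρ ^ 2)) ^ 2 - 4 * ρ ^ 2 := by unfold qq ss cc; ring
      rw [this]; nlinarith [sq_nonneg (r - (1 + ρ ^ 2))]
    nlinarith
  have kk0 : 0 ≤ kk M r := pow_nonneg k0 _
  have kk1 : kk M r ≤ b ^ M := pow_le_pow_left₀ k0 kb M
  have p1 : gam ρ * qq ρ r ^ 2 * kk M r ≤ gam ρ * 16 * b ^ M := by
    have : gam ρ * qq ρ r ^ 2 ≤ gam ρ * 16 := mul_le_mul_of_nonneg_left q2 g0.le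
    exact mul_le_mul this kk1 kk0 (by positivity)
  have p0 : 0 ≤ gam ρ * qq ρ r ^ 2 * kk M r := by positivity
  unfold hh
  constructor <;> linarith

/-- `κ` on the spectrum -/
lemma kp_val (M : ℕ) {r : ℝ} (hr : (1 - ρ) ^ 2 ≤ r) :
    kp M ρ (gam ρ) (tau ρ) r = (r ^ 2 - cc ρ) / (4 * ρ * r) * hh M ρ (gam ρ) r := by
  have r0 : 0 < r := by
    have : 0 < (1 - ρ) ^ 2 := by
      have := sub_pos.2 h1
      positivity
    linarith
  rw [← rFF (gam_mul h0 h1)]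
  unfold kp tau
  field_simp

lemma kp_abs {M : ℕ} {r : ℝ} (ra : (1 - ρ) ^ 2 ≤ r) (rb : r ≤ (1 + ρ) ^ 2)
    (hM : 1 / 2 ≤ hh M ρ (gam ρ) r ∧ hh M ρ (gam ρ) r ≤ 1) :
    |kp M ρ (gam ρ) (tau ρ) r| ≤ 1 := by
  have r0 : 0 < r := by
    have : 0 < (1 - ρ) ^ 2 := by
      have := sub_pos.2 h1
      positivity
    linarith
  rw [kp_val h0 h1 M ra, abs_mul]
  have a1 : |(r ^ 2 - cc ρ) / (4 * ρ * r)| ≤ 1 := by
    rw [abs_div, abs_of_pos (show 0 < 4 * ρ * r by positivity), div_le_one (by positivity), abs_le]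
    have b1 : 0 ≤ ((1 + ρ) ^ 2 - r) * (r + (1 - ρ) ^ 2) :=
      mul_nonneg (by linarith) (by positivity)
    have b2 : 0 ≤ (r - (1 - ρ) ^ 2) * (r + (1 + ρ) ^ 2) :=
      mul_nonneg (by linarith) (by positivity)
    unfold cc
    constructor <;> nlinarith
  have a2 : |hh M ρ (gam ρ) r| ≤ 1 := by rw [abs_le]; constructor <;> linarith [hM.1, hM.2]
  calc _ ≤ (1 : ℝ) * 1 := mul_le_mul a1 a2 (abs_nonneg _) (by norm_num)
    _ = 1 := one_mul 1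

lemma kp_pos {M : ℕ} {r : ℝ} (ra : (1 - ρ) ^ 2 ≤ r) (rb : 1 - ρ ^ 2 < r)
    (hM : 1 / 2 ≤ hh M ρ (gam ρ) r) : 0 < kp M ρ (gam ρ) (tau ρ) r := by
  have c0 := c_pos h0 h1
  have r0 : 0 < r := by linarith
  rw [kp_val h0 h1 M ra]
  have : 0 < r ^ 2 - cc ρ := by unfold cc; nlinarith
  have h2 : 0 < hh M ρ (gam ρ) r := by linarith
  positivity

lemma kp_neg {M : ℕ} {r : ℝ} (ra : (1 - ρ) ^ 2 ≤ r) (rb : r < 1 - ρ ^ 2)
    (hM : 1 / 2 ≤ hh M ρ (gam ρ) r) : kp M ρ (gam ρ) (tau ρ) r < 0 := by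
  have c0 := c_pos h0 h1
  have r0 : 0 < r := by
    have : 0 < (1 - ρ) ^ 2 := by
      have := sub_pos.2 h1
      positivity
    linarith
  rw [kp_val h0 h1 M ra]
  have : r ^ 2 - cc ρ < 0 := by unfold cc; nlinarith
  have h2 : 0 < hh M ρ (gam ρ) r := by linarith
  exact mul_neg_of_neg_of_pos (div_neg_of_neg_of_pos this (by positivity)) h2

/-- values of `ff` -/
lemma ff_pos_lim {X : ℝ} (hX : 0 < X) (hX1 : X ≤ 1) :
    Tendsto (fun N => ff (it (N + 1) X)) atTop (𝓝 0) := by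
  have l1 := (it_lim hX hX1).comp (tendsto_add_atTop_nat 1)
  have l2 := (ff_cont.tendsto 1).comp l1
  have e : ff (1 : ℝ) = 0 := by rw [ff_real]; norm_num
  rw [e] at l2
  exact l2

lemma ff_neg_lim {X : ℝ} (hX : X < 0) (hX1 : -1 ≤ X) :
    Tendsto (fun N => ff (it (N + 1) X)) atTop (𝓝 1) := by
  have l1 := ((it_lim (X := -X) (by linarith) (by linarith)).comp (tendsto_add_atTop_nat 1)).neg
  have l2 := (ff_cont.tendsto (-1)).comp l1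
  have e : ff (-1 : ℝ) = 1 := by rw [ff_real]; norm_num
  rw [e] at l2
  refine l2.congr fun N => ?_
  simp only [Function.comp_apply]
  rw [it_neg, neg_neg]

end

end

end Pool.Agent.J4H76.LB
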